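import Pool.Agent.H27.CAL.Defs

/-!
# Project CAL: elementary facts on the extension operators
-/

open scoped BigOperators ENNReal
open Filter

namespace CAL

theorem mm_pos (j : ℕ) : 0 < mm j := by unfold mm; positivity

theorem four_le_mm (j : ℕ) : 4 ≤ mm j := by
  unfold mm
  have h : 1 ≤ 2 ^ j := Nat.one_le_two_pow
  calc (4 : ℝ) = 4 ^ 1 := by norm_num
    _ ≤ 4 ^ (2 ^ j) := pow_le_pow_right₀ (by norm_num) h

theorem mm_succ (j : ℕ) : mm (j + 1) = mm j ^ 2 := by
  unfold mm
  rw [← pow_mul, pow_succ]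

theorem mm_mono {i j : ℕ} (h : i ≤ j) : mm i ≤ mm j := by
  unfold mm
  exact pow_le_pow_right₀ (by norm_num) (Nat.pow_le_pow_right (by norm_num) h)

theorem mm_inv_pos (j : ℕ) : 0 < (mm j)⁻¹ := inv_pos.2 (mm_pos j)

theorem mm_inv_le (j : ℕ) : (mm j)⁻¹ ≤ 1 / 4 := by
  rw [one_div]
  exact inv_anti₀ (by norm_num) (four_le_mm j)

theorem mm_inv_anti {i j : ℕ} (h : i ≤ j) : (mm j)⁻¹ ≤ (mm i)⁻¹ :=
  inv_anti₀ (mm_pos i) (mm_mono h)

/-- for i < j: (mm j)⁻¹ ≤ ((mm i)⁻¹)^2 -/
theorem mm_inv_sq {i j : ℕ} (h : i < j) : (mm j)⁻¹ ≤ ((mm i)⁻¹) ^ 2 := by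
  have := mm_inv_anti (show i + 1 ≤ j from h)
  rw [mm_succ] at this
  simpa [inv_pow] using this

/-! ### ret -/

section ret
variable {A : Type*} [PartialOrder A] (τ : TreeLev A)

theorem TreeLev.lev_le {a b : A} (h : a ≤ b) : τ.lev a ≤ τ.lev b := by
  rcases eq_or_lt_of_le h with h | h
  · rw [h]
  · exact (τ.lev_lt _ _ h).le

theorem TreeLev.exists_max {p : ℕ} {a c : A} (hc : c ≤ a) (hp : τ.lev c ≤ p) :
    ∃ b, b ≤ a ∧ τ.lev b ≤ p ∧ ∀ c, c ≤ a → τ.lev c ≤ p → c ≤ b := by
  classical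
  have hfin : {b | b ≤ a ∧ τ.lev b ≤ p}.Finite :=
    (τ.fin p).subset (fun b hb => hb.2)
  obtain ⟨b, hb, hmax⟩ := hfin.exists_maximalFor τ.lev _ ⟨c, hc, hp⟩
  refine ⟨b, hb.1, hb.2, fun d hd hdp => ?_⟩
  rcases τ.total a b d hb.1 hd with h | h
  · rcases eq_or_lt_of_le h with h | h
    · exact h.symm.le
    · have h1 := τ.lev_lt _ _ h
      have h2 := hmax (j := d) ⟨hd, hdp⟩ h1.le
      exact absurd h1 (not_lt.2 h2)
  · exact h

theorem TreeLev.ret_eq_some {p : ℕ} {a b : A} :
    τ.ret p a = some b ↔ b ≤ a ∧ τ.lev b ≤ p ∧ ∀ c, c ≤ a → τ.lev c ≤ p → c ≤ b := by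
  classical
  unfold TreeLev.ret
  constructor
  · intro h
    split_ifs at h with h1
    · have := h1.choose_spec
      simp only [Option.some.injEq] at h
      rw [h] at this
      exact this
  · intro h
    have h1 : ∃ b, b ≤ a ∧ τ.lev b ≤ p ∧ ∀ c, c ≤ a → τ.lev c ≤ p → c ≤ b := ⟨b, h⟩
    rw [dif_pos h1]
    have h2 := h1.choose_spec
    congr 1
    exact le_antisymm (h.2.2 _ h2.1 h2.2.1) (h2.2.2 _ h.1 h.2.1)

theorem TreeLev.ret_eq_none {p : ℕ} {a : A} :
    τ.ret p a = none ↔ ∀ c, c ≤ a → p < τ.lev c := by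
  classical
  constructor
  · intro h c hc
    by_contra hlt
    obtain ⟨b, hb⟩ := τ.exists_max hc (not_lt.1 hlt)
    rw [τ.ret_eq_some.2 hb] at h
    simp at h
  · intro h
    rcases hr : τ.ret p a with _ | b
    · rfl
    · obtain ⟨h1, h2, -⟩ := τ.ret_eq_some.1 hr
      exact absurd h2 (not_le.2 (h b h1))

theorem TreeLev.ret_self {p : ℕ} {a : A} (h : τ.lev a ≤ p) : τ.ret p a = some a :=
  τ.ret_eq_some.2 ⟨le_rfl, h, fun _ hc _ => hc⟩

theorem TreeLev.ret_zero (a : A) : τ.ret 0 a = none :=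
  τ.ret_eq_none.2 (fun c _ => τ.lev_pos c)

/-- ret p (ret q a) = ret (min p q) a -/
theorem TreeLev.ret_ret {p q : ℕ} {a : A} :
    (τ.ret q a).elim none (τ.ret p) = τ.ret (min p q) a := by
  rcases hq : τ.ret q a with _ | b
  · simp only [Option.elim_none]
    symm
    rw [τ.ret_eq_none] at hq ⊢
    intro c hc
    exact lt_of_le_of_lt (min_le_right _ _) (hq c hc)
  · simp only [Option.elim_some]
    obtain ⟨h1, h2, h3⟩ := τ.ret_eq_some.1 hq
    rcases hp : τ.ret p b with _ | c
    · symm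
      rw [τ.ret_eq_none] at hp ⊢
      intro c hc
      by_contra hlt
      rw [not_lt, le_min_iff] at hlt
      exact absurd hlt.1 (not_le.2 (hp c (h3 c hc hlt.2)))
    · symm
      rw [τ.ret_eq_some] at hp ⊢
      obtain ⟨g1, g2, g3⟩ := hp
      refine ⟨g1.trans h1, le_min g2 ((τ.lev_le g1).trans h2), fun d hd hdp => ?_⟩
      rw [le_min_iff] at hdp
      exact g3 d (h3 d hd hdp.2) hdp.1

end ret

/-! ### ev and nrm -/

section
variable {𝕜 : Type*} [RCLike 𝕜] {A : Type*} {Y : Type*} [NormedAddCommGroup Y]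
  [NormedSpace 𝕜 Y]

theorem norm_mi (j : ℕ) : ‖mi 𝕜 j‖ = (mm j)⁻¹ := by
  unfold mi
  rw [RCLike.norm_ofReal, abs_of_pos (mm_inv_pos j)]

theorem nrm_nonneg (b : Fn 𝕜 A Y) : 0 ≤ nrm b := by
  unfold nrm
  apply add_nonneg <;> exact Finset.sum_nonneg (fun _ _ => norm_nonneg _)

theorem ev_add_right (b : Fn 𝕜 A Y) (x y : Pt 𝕜 A Y) : ev b (x + y) = ev b x + ev b y := by
  unfold ev
  simp only [Finsupp.sum, Prod.fst_add, Prod.snd_add, Pi.add_apply, mul_add, map_add,
    Finset.sum_add_distrib]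
  ring

theorem ev_smul_right (b : Fn 𝕜 A Y) (c : 𝕜) (x : Pt 𝕜 A Y) : ev b (c • x) = c * ev b x := by
  unfold ev
  simp only [Finsupp.sum, Prod.smul_fst, Prod.smul_snd, Pi.smul_apply, smul_eq_mul, map_smul,
    mul_add, Finset.mul_sum]
  congr 1
  exact Finset.sum_congr rfl (fun i _ => by ring)

theorem ev_zero_right (b : Fn 𝕜 A Y) : ev b (0 : Pt 𝕜 A Y) = 0 := by
  unfold ev
  simp [Finsupp.sum]

theorem ev_sub_right (b : Fn 𝕜 A Y) (x y : Pt 𝕜 A Y) : ev b (x - y) = ev b x - ev b y := by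
  have h := ev_add_right b (x - y) y
  rw [sub_add_cancel] at h
  rw [h]; ring

theorem ev_add_left (b c : Fn 𝕜 A Y) (x : Pt 𝕜 A Y) : ev (b + c) x = ev b x + ev c x := by
  classical
  unfold ev
  rw [Prod.fst_add, Prod.snd_add,
    Finsupp.sum_add_index' (by intro; simp) (by intros; ring),
    Finsupp.sum_add_index' (by intro; simp) (by intros; simp)]
  ring

theorem ev_neg_left (b : Fn 𝕜 A Y) (x : Pt 𝕜 A Y) : ev (-b) x = - ev b x := by
  have h := ev_add_left b (-b) x
  have hb : b + -b = 0 := add_neg_cancel b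
  rw [hb] at h
  have h0 : ev (0 : Fn 𝕜 A Y) x = 0 := by unfold ev; simp
  rw [h0] at h
  exact (neg_eq_of_add_eq_zero_right h.symm).symm

theorem ev_sub_left (b c : Fn 𝕜 A Y) (x : Pt 𝕜 A Y) : ev (b - c) x = ev b x - ev c x := by
  have hb : b - c = b + -c := sub_eq_add_neg b c
  rw [hb, ev_add_left, ev_neg_left]; ring

theorem ev_single (γ : ℕ) (x : Pt 𝕜 A Y) :
    ev ((Finsupp.single γ 1, 0) : Fn 𝕜 A Y) x = x.2 γ := by
  unfold ev
  simp

/-- a functional only sees the coordinates of its support -/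
theorem ev_congr (b : Fn 𝕜 A Y) {x y : Pt 𝕜 A Y} (h1 : ∀ γ ∈ b.1.support, x.2 γ = y.2 γ)
    (h2 : ∀ a ∈ b.2.support, x.1 a = y.1 a) : ev b x = ev b y := by
  unfold ev Finsupp.sum
  congr 1
  · exact Finset.sum_congr rfl (fun i hi => by simp only [h1 i hi])
  · exact Finset.sum_congr rfl (fun i hi => by simp only [h2 i hi])

theorem norm_ev_le (b : Fn 𝕜 A Y) {x : Pt 𝕜 A Y} {C : ℝ}
    (h1 : ∀ γ ∈ b.1.support, ‖x.2 γ‖ ≤ C) (h2 : ∀ a ∈ b.2.support, ‖x.1 a‖ ≤ C) :
    ‖ev b x‖ ≤ nrm b * C := by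
  unfold ev nrm Finsupp.sum
  refine (norm_add_le _ _).trans ?_
  rw [add_mul, Finset.sum_mul, Finset.sum_mul]
  apply add_le_add
  · refine (norm_sum_le _ _).trans (Finset.sum_le_sum fun i hi => ?_)
    rw [norm_mul]
    exact mul_le_mul_of_nonneg_left (h1 i hi) (norm_nonneg _)
  · refine (norm_sum_le _ _).trans (Finset.sum_le_sum fun i hi => ?_)
    exact ((b.2 i).le_opNorm _).trans (mul_le_mul_of_nonneg_left (h2 i hi) (norm_nonneg _))

/-! ### the operators P -/

variable [PartialOrder A] {τ : TreeLev A} (D : Dat 𝕜 Y τ)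

/-- the recursion in one formula -/
theorem Dat.P_gt (p : ℕ) (x : Pt 𝕜 A Y) (γ : ℕ) (h : p < D.lev γ) :
    (D.P p x).2 γ = (D.pred γ).elim 0 (D.P p x).2 + mi 𝕜 (D.wt γ) *
      (ev (D.b γ) (D.P p x) - (D.pred γ).elim 0
        (fun ξ => ev (D.b γ) (D.P (min p (D.lev ξ)) x))) := by
  rcases hp : D.pred γ with _ | ξ
  · simp [D.P_none p x γ h hp]
  · simp only [Option.elim_some]
    exact D.P_some p x γ ξ h hp

/-- two points which agree on coordinates of level at most p have the same extension -/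
theorem Dat.P_congr {p : ℕ} {x y : Pt 𝕜 A Y} (h1 : ∀ a, τ.lev a ≤ p → x.1 a = y.1 a)
    (h2 : ∀ γ, D.lev γ ≤ p → x.2 γ = y.2 γ) : D.P p x = D.P p y := by
  have hnd : ∀ p', p' ≤ p → ∀ a, (D.P p' x).1 a = (D.P p' y).1 a := by
    intro p' hp' a
    rw [D.P_nd, D.P_nd]
    rcases hr : τ.ret p' a with _ | b
    · rfl
    · exact h1 b ((τ.ret_eq_some.1 hr).2.1.trans hp')
  have hsc : ∀ n, ∀ γ, D.lev γ ≤ n → ∀ p', p' ≤ p → (D.P p' x).2 γ = (D.P p' y).2 γ := by
    intro n
    induction n with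
    | zero => intro γ hγ; exact absurd (D.lev_pos γ) (by omega)
    | succ n ih =>
      intro γ hγ p' hp'
      by_cases hle : D.lev γ ≤ p'
      · rw [D.P_le _ _ _ hle, D.P_le _ _ _ hle]
        exact h2 γ (hle.trans hp')
      · rw [not_le] at hle
        have hev : ∀ p'', p'' ≤ p → ev (D.b γ) (D.P p'' x) = ev (D.b γ) (D.P p'' y) := by
          intro p'' hp''
          apply ev_congr
          · intro β hβ
            have := D.b_sc γ β hβ
            exact ih β (by omega) p'' hp''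
          · intro a _
            exact hnd p'' hp'' a
        rcases hpr : D.pred γ with _ | ξ
        · rw [D.P_none _ _ _ hle hpr, D.P_none _ _ _ hle hpr, hev p' hp']
        · have hξ := D.pred_lev γ ξ hpr
          rw [D.P_some _ _ _ _ hle hpr, D.P_some _ _ _ _ hle hpr, hev p' hp',
            hev _ ((min_le_left _ _).trans hp'), ih ξ (by omega) p' hp']
  ext a
  · exact hnd p le_rfl a
  · exact hsc _ a le_rfl p le_rfl

theorem Dat.P_add (p : ℕ) (x y : Pt 𝕜 A Y) : D.P p (x + y) = D.P p x + D.P p y := by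
  have hnd : ∀ p a, (D.P p (x + y)).1 a = (D.P p x).1 a + (D.P p y).1 a := by
    intro p a
    rw [D.P_nd, D.P_nd, D.P_nd]
    rcases τ.ret p a with _ | b <;> simp
  have hsc : ∀ n, ∀ γ, D.lev γ ≤ n → ∀ p, (D.P p (x + y)).2 γ = (D.P p x).2 γ + (D.P p y).2 γ := by
    intro n
    induction n with
    | zero => intro γ hγ; exact absurd (D.lev_pos γ) (by omega)
    | succ n ih =>
      intro γ hγ p
      by_cases hle : D.lev γ ≤ p
      · simp [D.P_le _ _ _ hle]
      · rw [not_le] at hle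
        have hev : ∀ p, ev (D.b γ) (D.P p (x + y)) =
            ev (D.b γ) (D.P p x) + ev (D.b γ) (D.P p y) := by
          intro p
          rw [← ev_add_right]
          apply ev_congr
          · intro β hβ
            have := D.b_sc γ β hβ
            exact ih β (by omega) p
          · intro a _
            exact hnd p a
        rcases hpr : D.pred γ with _ | ξ
        · rw [D.P_none _ _ _ hle hpr, D.P_none _ _ _ hle hpr, D.P_none _ _ _ hle hpr, hev p]
          ring
        · have hξ := D.pred_lev γ ξ hpr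
          rw [D.P_some _ _ _ _ hle hpr, D.P_some _ _ _ _ hle hpr, D.P_some _ _ _ _ hle hpr,
            hev p, hev _, ih ξ (by omega) p]
          ring
  ext a
  · exact hnd p a
  · exact hsc _ a le_rfl p

theorem Dat.P_smul (p : ℕ) (c : 𝕜) (x : Pt 𝕜 A Y) : D.P p (c • x) = c • D.P p x := by
  have hnd : ∀ p a, (D.P p (c • x)).1 a = c • (D.P p x).1 a := by
    intro p a
    rw [D.P_nd, D.P_nd]
    rcases τ.ret p a with _ | b <;> simp
  have hsc : ∀ n, ∀ γ, D.lev γ ≤ n → ∀ p, (D.P p (c • x)).2 γ = c * (D.P p x).2 γ := by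
    intro n
    induction n with
    | zero => intro γ hγ; exact absurd (D.lev_pos γ) (by omega)
    | succ n ih =>
      intro γ hγ p
      by_cases hle : D.lev γ ≤ p
      · simp [D.P_le _ _ _ hle]
      · rw [not_le] at hle
        have hev : ∀ p, ev (D.b γ) (D.P p (c • x)) = c * ev (D.b γ) (D.P p x) := by
          intro p
          rw [← ev_smul_right]
          apply ev_congr
          · intro β hβ
            have := D.b_sc γ β hβ
            exact ih β (by omega) p
          · intro a _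
            exact hnd p a
        rcases hpr : D.pred γ with _ | ξ
        · rw [D.P_none _ _ _ hle hpr, D.P_none _ _ _ hle hpr, hev p]
          ring
        · have hξ := D.pred_lev γ ξ hpr
          rw [D.P_some _ _ _ _ hle hpr, D.P_some _ _ _ _ hle hpr,
            hev p, hev _, ih ξ (by omega) p]
          ring
  ext a
  · exact hnd p a
  · exact hsc _ a le_rfl p

theorem Dat.P_comp (p q : ℕ) (x : Pt 𝕜 A Y) : D.P p (D.P q x) = D.P (min p q) x := by
  have hnd : ∀ p q a, (D.P p (D.P q x)).1 a = (D.P (min p q) x).1 a := by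
    intro p q a
    rw [D.P_nd, D.P_nd, ← τ.ret_ret]
    have : ∀ o : Option A, o.elim 0 (D.P q x).1 = (o.elim none (τ.ret q)).elim 0 x.1 := by
      intro o
      rcases o with _ | b
      · rfl
      · simp only [Option.elim_some]; rw [D.P_nd]
    rw [this, τ.ret_ret, τ.ret_ret, min_comm]
  have hsc : ∀ n, ∀ γ, D.lev γ ≤ n → ∀ p q, (D.P p (D.P q x)).2 γ = (D.P (min p q) x).2 γ := by
    intro n
    induction n with
    | zero => intro γ hγ; exact absurd (D.lev_pos γ) (by omega)
    | succ n ih =>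
      intro γ hγ p q
      have hev : ∀ p q, ev (D.b γ) (D.P p (D.P q x)) = ev (D.b γ) (D.P (min p q) x) := by
        intro p q
        apply ev_congr
        · intro β hβ
          have := D.b_sc γ β hβ
          exact ih β (by omega) p q
        · intro a _
          exact hnd p q a
      by_cases hle : D.lev γ ≤ p
      · rw [D.P_le _ _ _ hle]
        by_cases hq : D.lev γ ≤ q
        · rw [D.P_le _ _ _ hq, D.P_le _ _ _ (le_min hle hq)]
        · rw [not_le] at hq
          rw [min_eq_right (by omega)]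
      · rw [not_le] at hle
        have hmin : min p q < D.lev γ := lt_of_le_of_lt (min_le_left _ _) hle
        rcases hpr : D.pred γ with _ | ξ
        · rw [D.P_none _ _ _ hle hpr, D.P_none _ _ _ hmin hpr, hev p q]
        · have hξ := D.pred_lev γ ξ hpr
          rw [D.P_some _ _ _ _ hle hpr, D.P_some _ _ _ _ hmin hpr,
            hev p q, hev _ q, ih ξ (by omega) p q, min_right_comm]
  ext a
  · exact hnd p q a
  · exact hsc _ a le_rfl p q

theorem Dat.P_bound {x : Pt 𝕜 A Y} {C : ℝ} (hC : 0 ≤ C) (h1 : ∀ a, ‖x.1 a‖ ≤ C)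
    (h2 : ∀ γ, ‖x.2 γ‖ ≤ C) (p : ℕ) :
    (∀ a, ‖(D.P p x).1 a‖ ≤ C) ∧ ∀ γ, ‖(D.P p x).2 γ‖ ≤ 2 * C := by
  have hnd : ∀ p a, ‖(D.P p x).1 a‖ ≤ C := by
    intro p a
    rw [D.P_nd]
    rcases τ.ret p a with _ | b
    · simpa using hC
    · exact h1 b
  have hsc : ∀ n, ∀ γ, D.lev γ ≤ n → ∀ p, ‖(D.P p x).2 γ‖ ≤ 2 * C := by
    intro n
    induction n with
    | zero => intro γ hγ; exact absurd (D.lev_pos γ) (by omega)
    | succ n ih =>
      intro γ hγ p
      by_cases hle : D.lev γ ≤ p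
      · rw [D.P_le _ _ _ hle]
        have := h2 γ
        linarith
      · rw [not_le] at hle
        have hev : ∀ p, ‖ev (D.b γ) (D.P p x)‖ ≤ 2 * C := by
          intro p
          refine (norm_ev_le (D.b γ) (C := 2 * C) ?_ ?_).trans ?_
          · intro β hβ
            have := D.b_sc γ β hβ
            exact ih β (by omega) p
          · intro a _
            have := hnd p a
            linarith
          · have := D.b_norm γ
            nlinarith
        have hm := mm_inv_le (D.wt γ)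
        have hm0 := mm_inv_pos (D.wt γ)
        rcases hpr : D.pred γ with _ | ξ
        · rw [D.P_none _ _ _ hle hpr, norm_mul, norm_mi]
          have h3 := hev p
          have h4 := norm_nonneg (ev (D.b γ) (D.P p x))
          nlinarith
        · have hξ := D.pred_lev γ ξ hpr
          rw [D.P_some _ _ _ _ hle hpr]
          by_cases hpq : p ≤ D.lev ξ
          · rw [min_eq_left hpq, sub_self, mul_zero, add_zero]
            exact ih ξ (by omega) p
          · rw [not_le] at hpq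
            rw [D.P_le _ _ _ hpq.le]
            refine (norm_add_le _ _).trans ?_
            rw [norm_mul, norm_mi]
            have h3 : ‖ev (D.b γ) (D.P p x) - ev (D.b γ) (D.P (min p (D.lev ξ)) x)‖ ≤ 4 * C := by
              refine (norm_sub_le _ _).trans ?_
              have := hev p
              have := hev (min p (D.lev ξ))
              linarith
            have h4 := norm_nonneg (ev (D.b γ) (D.P p x) - ev (D.b γ) (D.P (min p (D.lev ξ)) x))
            have h5 := h2 ξ
            nlinarith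
  exact ⟨hnd p, fun γ => hsc _ γ le_rfl p⟩

end

end CAL
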