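import Mathlib

/-!
# Project CAL: the unitization of the compact operators on C(K) is a Calkin algebra
Basic definitions: weights, tree orders, auxiliary families, Argyros-Haydon data.
-/

open scoped BigOperators ENNReal
open Filter

namespace CAL

/-- the weights: 4, 16, 256, ...; mm (j+1) = (mm j)^2 -/
noncomputable def mm (j : ℕ) : ℝ := 4 ^ (2 ^ j)

/-- the smallness parameter of the convex means attached to weight j -/
noncomputable def epsj (j : ℕ) : ℝ := (mm j)⁻¹ ^ 3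

/-! ### Trees of nodes -/

/-- a partial order which is a forest with finite branches, with a level function -/
structure TreeLev (A : Type*) [PartialOrder A] where
  lev : A → ℕ
  lev_pos : ∀ a, 0 < lev a
  lev_lt : ∀ a b : A, a < b → lev a < lev b
  fin : ∀ n, {a | lev a ≤ n}.Finite
  total : ∀ a b c : A, b ≤ a → c ≤ a → b ≤ c ∨ c ≤ b
  wf : ∀ f : ℕ → A, ¬ StrictMono f

open Classical in
/-- the last element of the branch of `a` whose level is at most `p` -/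
noncomputable def TreeLev.ret {A : Type*} [PartialOrder A] (τ : TreeLev A) (p : ℕ) (a : A) :
    Option A :=
  if h : ∃ b, b ≤ a ∧ τ.lev b ≤ p ∧ ∀ c, c ≤ a → τ.lev c ≤ p → c ≤ b then some h.choose else none

/-- finite sets of positions which are met by one branch of the tree -/
def TreeLev.Chain {A : Type*} [PartialOrder A] (τ : TreeLev A) (G : Finset ℕ) : Prop :=
  G = ∅ ∨ ∃ a : A, ∀ t ∈ G, ∃ b, b ≤ a ∧ τ.lev b ≤ t ∧ ∀ t' ∈ G, t' < t → t' < τ.lev b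

/-! ### Families of finite sets and auxiliary functionals -/

/-- number of elements of P which are at most t (the number of the gap of t) -/
def cnt (P : Finset ℕ) (t : ℕ) : ℕ := (P.filter (· ≤ t)).card

/-- closed under subsets -/
def Hered (H : Finset ℕ → Prop) : Prop := ∀ G G', G' ⊆ G → H G → H G'

/-- no infinite set has all its initial segments in the family -/
def WFam (H : Finset ℕ → Prop) : Prop :=
  ∀ t : ℕ → ℕ, StrictMono t → ∃ n, ¬ H ((Finset.range n).image t)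

/-- auxiliary functionals of order j: built from unit vectors, indicators of sets of Ch and
weighted sums over the gaps of sets P in Fam i, i < j -/
inductive WW (Ch : Finset ℕ → Prop) (Fam : ℕ → Finset ℕ → Prop) (j : ℕ) : (ℕ → ℝ) → Prop
  | zero : WW Ch Fam j (fun _ => 0)
  | single (t : ℕ) : WW Ch Fam j (fun s => if s = t then 1 else 0)
  | chain (G : Finset ℕ) (h : Ch G) : WW Ch Fam j (fun s => if s ∈ G then 1 else 0)
  | node (i : ℕ) (hi : i < j) (P : Finset ℕ) (hP : Fam i P) (S : Finset ℕ)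
      (hS : ∀ s ∈ S, ∀ t ∈ S, cnt P s = cnt P t → s = t) (h : ℕ → ℝ)
      (hh : ∀ c, WW Ch Fam j (fun s => if cnt P s = c then h s else 0))
      (hd : ∀ s ∈ S, h s = 0) :
      WW Ch Fam j (fun s => (mm i)⁻¹ * ((if s ∈ S then 1 else 0) + h s))

/-- l is a probability on H on which all functionals of W are at most e -/
def Good (W : (ℕ → ℝ) → Prop) (e : ℝ) (H : Finset ℕ) (l : ℕ → ℝ) : Prop :=
  (∀ t, 0 ≤ l t) ∧ (∀ t, t ∉ H → l t = 0) ∧ ∑ t ∈ H, l t = 1 ∧ ∀ g, W g → ∑ t ∈ H, l t * g t ≤ e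

/-- the families attached to the weights -/
structure FamSys (Ch : Finset ℕ → Prop) where
  Fam : ℕ → Finset ℕ → Prop
  init : ∀ j H n, Fam j H → Fam j (H.filter (· < n))
  wf : ∀ j, WFam (Fam j)
  ext : ∀ j H, (∃ l, Good (WW Ch Fam j) (epsj j) H l) ∨
    ∀ n, (∀ h ∈ H, h < n) → Fam j (insert n H)

/-- three disjoint infinite sets of weights: E1, E2 free weights, O coded weights -/
structure Wts where
  E1 : Set ℕ
  E2 : Set ℕ
  O : Set ℕ
  e12 : Disjoint E1 E2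
  e1o : Disjoint E1 O
  e2o : Disjoint E2 O
  inf1 : E1.Infinite
  inf2 : E2.Infinite
  info : O.Infinite

/-- all weights in use -/
def Wts.L (w : Wts) : Set ℕ := w.E1 ∪ w.E2 ∪ w.O

/-! ### Functionals on coordinates, Argyros-Haydon data -/

section Dat

variable (𝕜 : Type*) [RCLike 𝕜] (A : Type*) [PartialOrder A] (Y : Type*) [NormedAddCommGroup Y]
  [NormedSpace 𝕜 Y]

/-- points: Y-valued coordinates on nodes, scalar coordinates indexed by ℕ -/
abbrev Pt := (A → Y) × (ℕ → 𝕜)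

/-- finitely supported functionals -/
abbrev Fn := (ℕ →₀ 𝕜) × (A →₀ (Y →L[𝕜] 𝕜))

variable {𝕜 A Y}

/-- value of a functional at a point -/
noncomputable def ev (b : Fn 𝕜 A Y) (x : Pt 𝕜 A Y) : 𝕜 :=
  (b.1.sum fun γ c => c * x.2 γ) + b.2.sum fun a f => f (x.1 a)

/-- l_1 norm of a functional -/
noncomputable def nrm (b : Fn 𝕜 A Y) : ℝ :=
  (b.1.sum fun _ c => ‖c‖) + b.2.sum fun _ f => ‖f‖

variable (𝕜) in
/-- the inverse weight as a scalar -/
noncomputable def mi (j : ℕ) : 𝕜 := (((mm j)⁻¹ : ℝ) : 𝕜)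

variable (𝕜 Y) in
/-- Bourgain-Delbaen data with weights. P p x is the extension of the coordinates of x of level
at most p. -/
structure Dat (τ : TreeLev A) where
  lev : ℕ → ℕ
  wt : ℕ → ℕ
  pred : ℕ → Option ℕ
  b : ℕ → Fn 𝕜 A Y
  Lv : ℕ → Finset ℕ
  P : ℕ → Pt 𝕜 A Y → Pt 𝕜 A Y
  lev_pos : ∀ γ, 0 < lev γ
  fin : ∀ n, {γ | lev γ ≤ n}.Finite
  wt_le : ∀ γ, wt γ ≤ lev γ
  pred_lev : ∀ γ ξ, pred γ = some ξ → lev ξ < lev γ
  pred_wt : ∀ γ ξ, pred γ = some ξ → wt ξ = wt γ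
  b_norm : ∀ γ, nrm (b γ) ≤ 1
  b_sc : ∀ γ, ∀ β ∈ (b γ).1.support, lev β < lev γ
  b_nd : ∀ γ, ∀ a ∈ (b γ).2.support, τ.lev a < lev γ
  Lv_none : ∀ γ, pred γ = none → Lv γ = {lev γ}
  Lv_some : ∀ γ ξ, pred γ = some ξ → Lv γ = insert (lev γ) (Lv ξ)
  P_nd : ∀ p x a, (P p x).1 a = (τ.ret p a).elim 0 x.1
  P_le : ∀ p x γ, lev γ ≤ p → (P p x).2 γ = x.2 γ
  P_none : ∀ p x γ, p < lev γ → pred γ = none →
    (P p x).2 γ = mi 𝕜 (wt γ) * ev (b γ) (P p x)
  P_some : ∀ p x γ ξ, p < lev γ → pred γ = some ξ →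
    (P p x).2 γ = (P p x).2 ξ +
      mi 𝕜 (wt γ) * (ev (b γ) (P p x) - ev (b γ) (P (min p (lev ξ)) x))

/-- richness of the data with respect to weights `w` and families `F` -/
structure Rich {τ : TreeLev A} (D : Dat 𝕜 Y τ) {Ch : Finset ℕ → Prop} (F : FamSys Ch) (w : Wts)
    where
  /-- coding function -/
  sg : ℕ → ℕ
  /-- the element coded by γ, for odd weights -/
  th : ℕ → ℕ
  sg_inj : Function.Injective sg
  sg_mem : ∀ γ, sg γ ∈ w.E2
  sg_lt : ∀ γ, D.lev γ < sg γ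
  chain_le : ∀ G, τ.Chain G → Ch G
  wt_mem : ∀ γ, D.wt γ ∈ w.L
  adm : ∀ γ, F.Fam (D.wt γ) (D.Lv γ)
  odd_b : ∀ γ, D.wt γ ∈ w.O → D.b γ = (Finsupp.single (th γ) 1, 0)
  odd_none : ∀ γ, D.wt γ ∈ w.O → D.pred γ = none → D.wt (th γ) ∈ w.E1 ∧ D.wt γ < D.wt (th γ)
  odd_some : ∀ γ ξ, D.wt γ ∈ w.O → D.pred γ = some ξ → D.wt (th γ) = sg ξ
  even_rich : ∀ j ∈ w.E1 ∪ w.E2, ∀ (m : ℕ) (c : Fn 𝕜 A Y), nrm c ≤ 1 →
    (∀ β ∈ c.1.support, D.lev β ≤ m) → (∀ a ∈ c.2.support, τ.lev a ≤ m) → ∀ δ > (0 : ℝ),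
    ∃ n0, ∀ n ≥ n0, ∀ ξ : Option ℕ,
      (ξ = none → F.Fam j {n}) →
      (∀ ζ, ξ = some ζ → D.wt ζ = j ∧ D.lev ζ < n ∧ F.Fam j (insert n (D.Lv ζ))) →
      ∃ γ, D.lev γ = n ∧ D.wt γ = j ∧ D.pred γ = ξ ∧ nrm (D.b γ - c) ≤ δ
  odd_rich : ∀ j ∈ w.O, ∀ (η n : ℕ) (ξ : Option ℕ), D.lev η < n → j ≤ n →
      (ξ = none → F.Fam j {n} ∧ D.wt η ∈ w.E1 ∧ j < D.wt η) →
      (∀ ζ, ξ = some ζ → D.wt ζ = j ∧ D.lev ζ < n ∧ F.Fam j (insert n (D.Lv ζ)) ∧
        D.wt η = sg ζ) →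
      ∃ γ, D.lev γ = n ∧ D.wt γ = j ∧ D.pred γ = ξ ∧ th γ = η

end Dat

end CAL
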