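import Pool.Agent.H27.CAL.Base

/-!
# Project CAL: the Banach space X of a system of Argyros-Haydon data
-/

open scoped BigOperators ENNReal Topology
open Filter

set_option linter.unusedSectionVars false

namespace CAL

section
variable (𝕜 : Type*) [RCLike 𝕜] (A : Type*) (Y : Type*) [NormedAddCommGroup Y]
  [NormedSpace 𝕜 Y]

/-- ambient space: bounded points -/
abbrev BB := lp (fun _ : A => Y) ∞ × lp (fun _ : ℕ => 𝕜) ∞

variable {𝕜 A Y}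

/-- coordinates of a bounded point -/
def toPt (x : BB 𝕜 A Y) : Pt 𝕜 A Y := (fun a => x.1 a, fun γ => x.2 γ)

theorem toPt_add (x y : BB 𝕜 A Y) : toPt (x + y) = toPt x + toPt y := rfl
theorem toPt_smul (c : 𝕜) (x : BB 𝕜 A Y) : toPt (c • x) = c • toPt x := rfl

theorem toPt_inj {x y : BB 𝕜 A Y} (h : toPt x = toPt y) : x = y := by
  have h1 := congrArg Prod.fst h
  have h2 := congrArg Prod.snd h
  ext a
  · exact congrFun h1 a
  · exact congrFun h2 a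

theorem norm_nd_le (x : BB 𝕜 A Y) (a : A) : ‖(toPt x).1 a‖ ≤ ‖x‖ :=
  (lp.norm_apply_le_norm (by simp) x.1 a).trans (norm_fst_le x)

theorem norm_sc_le (x : BB 𝕜 A Y) (γ : ℕ) : ‖(toPt x).2 γ‖ ≤ ‖x‖ :=
  (lp.norm_apply_le_norm (by simp) x.2 γ).trans (norm_snd_le x)

theorem norm_BB_le {x : BB 𝕜 A Y} {C : ℝ} (hC : 0 ≤ C) (h1 : ∀ a, ‖(toPt x).1 a‖ ≤ C)
    (h2 : ∀ γ, ‖(toPt x).2 γ‖ ≤ C) : ‖x‖ ≤ C := by
  rw [Prod.norm_def]
  exact max_le (lp.norm_le_of_forall_le hC h1) (lp.norm_le_of_forall_le hC h2)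

/-- the bounded point with given coordinates -/
def mkB (x : Pt 𝕜 A Y) (C : ℝ) (h1 : ∀ a, ‖x.1 a‖ ≤ C) (h2 : ∀ γ, ‖x.2 γ‖ ≤ C) : BB 𝕜 A Y :=
  (⟨x.1, memℓp_infty ⟨C, by rintro _ ⟨a, rfl⟩; exact h1 a⟩⟩,
   ⟨x.2, memℓp_infty ⟨C, by rintro _ ⟨a, rfl⟩; exact h2 a⟩⟩)

theorem toPt_mkB (x : Pt 𝕜 A Y) (C : ℝ) (h1 : ∀ a, ‖x.1 a‖ ≤ C) (h2 : ∀ γ, ‖x.2 γ‖ ≤ C) :
    toPt (mkB x C h1 h2) = x := rfl

/-- a functional as a continuous linear functional on the ambient space -/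
noncomputable def evB (b : Fn 𝕜 A Y) : BB 𝕜 A Y →L[𝕜] 𝕜 :=
  LinearMap.mkContinuous
    { toFun := fun x => ev b (toPt x)
      map_add' := fun x y => by rw [toPt_add, ev_add_right]
      map_smul' := fun c x => by rw [toPt_smul, ev_smul_right]; rfl }
    (nrm b) (fun x => norm_ev_le b (fun γ _ => norm_sc_le x γ) (fun a _ => norm_nd_le x a))

theorem evB_apply (b : Fn 𝕜 A Y) (x : BB 𝕜 A Y) : evB b x = ev b (toPt x) := rfl

theorem norm_evB_le (b : Fn 𝕜 A Y) (x : BB 𝕜 A Y) : ‖evB b x‖ ≤ nrm b * ‖x‖ :=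
  norm_ev_le b (fun γ _ => norm_sc_le x γ) (fun a _ => norm_nd_le x a)

end

section
variable {𝕜 : Type*} [RCLike 𝕜] {A : Type*} [PartialOrder A] {Y : Type*} [NormedAddCommGroup Y]
  [NormedSpace 𝕜 Y] {τ : TreeLev A} (D : Dat 𝕜 Y τ)

/-- P p on the ambient space -/
noncomputable def Dat.Pc (p : ℕ) : BB 𝕜 A Y →L[𝕜] BB 𝕜 A Y :=
  LinearMap.mkContinuous
    { toFun := fun x => mkB (D.P p (toPt x)) (2 * ‖x‖)
        (fun a => ((D.P_bound (norm_nonneg x) (norm_nd_le x) (norm_sc_le x) p).1 a).trans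
          (by linarith [norm_nonneg x]))
        ((D.P_bound (norm_nonneg x) (norm_nd_le x) (norm_sc_le x) p).2)
      map_add' := fun x y => toPt_inj (by
        rw [toPt_mkB, toPt_add, toPt_add, toPt_mkB, toPt_mkB, D.P_add])
      map_smul' := fun c x => toPt_inj (by
        rw [toPt_mkB, toPt_smul, RingHom.id_apply, toPt_smul, toPt_mkB, D.P_smul]) }
    2 (fun x => norm_BB_le (by positivity)
        (fun a => ((D.P_bound (norm_nonneg x) (norm_nd_le x) (norm_sc_le x) p).1 a).trans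
          (by linarith [norm_nonneg x]))
        ((D.P_bound (norm_nonneg x) (norm_nd_le x) (norm_sc_le x) p).2))

theorem Dat.toPt_Pc (p : ℕ) (x : BB 𝕜 A Y) : toPt (D.Pc p x) = D.P p (toPt x) := rfl

theorem Dat.norm_Pc_le (p : ℕ) (x : BB 𝕜 A Y) : ‖D.Pc p x‖ ≤ 2 * ‖x‖ :=
  norm_BB_le (by positivity)
    (fun a => ((D.P_bound (norm_nonneg x) (norm_nd_le x) (norm_sc_le x) p).1 a).trans
      (by linarith [norm_nonneg x]))
    ((D.P_bound (norm_nonneg x) (norm_nd_le x) (norm_sc_le x) p).2)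

theorem Dat.Pc_Pc (p q : ℕ) (x : BB 𝕜 A Y) : D.Pc p (D.Pc q x) = D.Pc (min p q) x :=
  toPt_inj (by rw [D.toPt_Pc, D.toPt_Pc, D.toPt_Pc, D.P_comp])

/-- the space X: bounded points x with P p x → x -/
noncomputable def Dat.X : Submodule 𝕜 (BB 𝕜 A Y) where
  carrier := {x | Tendsto (fun p => D.Pc p x) atTop (𝓝 x)}
  add_mem' := by
    intro x y hx hy
    simpa using Tendsto.add (f := fun p => D.Pc p x) (g := fun p => D.Pc p y) hx hy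
  zero_mem' := by simp
  smul_mem' := by
    intro c x hx
    simpa using Tendsto.const_smul (f := fun p => D.Pc p x) hx c

theorem Dat.mem_X {x : BB 𝕜 A Y} : x ∈ D.X ↔ Tendsto (fun p => D.Pc p x) atTop (𝓝 x) := Iff.rfl

theorem Dat.Pc_mem (p : ℕ) (x : BB 𝕜 A Y) : D.Pc p x ∈ D.X := by
  rw [D.mem_X]
  apply tendsto_const_nhds.congr'
  filter_upwards [eventually_ge_atTop p] with q hq
  rw [D.Pc_Pc, min_eq_right hq]

theorem Dat.X_closed : IsClosed (D.X : Set (BB 𝕜 A Y)) := by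
  rw [← isSeqClosed_iff_isClosed]
  intro u x hu hux
  show Tendsto (fun p => D.Pc p x) atTop (𝓝 x)
  rw [Metric.tendsto_atTop]
  intro ε hε
  obtain ⟨n, hn⟩ := ((Metric.tendsto_atTop.1 hux) (ε / 4) (by positivity)).imp (fun _ h => h)
  have h1 : dist (u n) x < ε / 4 := hn n le_rfl
  obtain ⟨N, hN⟩ := (Metric.tendsto_atTop.1 (hu n : Tendsto (fun p => D.Pc p (u n)) atTop
    (𝓝 (u n)))) (ε / 4) (by positivity)
  refine ⟨N, fun p hp => ?_⟩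
  have h2 := hN p hp
  have h3 : dist (D.Pc p x) (D.Pc p (u n)) ≤ 2 * dist (u n) x := by
    rw [dist_eq_norm, ← map_sub, dist_comm (u n) x, dist_eq_norm]
    exact D.norm_Pc_le p _
  have h4 := dist_triangle4 (D.Pc p x) (D.Pc p (u n)) (u n) x
  linarith

instance [CompleteSpace Y] : CompleteSpace D.X :=
  D.X_closed.completeSpace_coe

/-- scalar coordinate -/
noncomputable def Dat.co (γ : ℕ) : D.X →L[𝕜] 𝕜 :=
  LinearMap.mkContinuous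
    { toFun := fun x => (toPt (x : BB 𝕜 A Y)).2 γ
      map_add' := fun _ _ => rfl
      map_smul' := fun _ _ => rfl }
    1 (fun x => by rw [one_mul]; exact norm_sc_le (x : BB 𝕜 A Y) γ)

/-- Y-valued coordinate -/
noncomputable def Dat.nd (a : A) : D.X →L[𝕜] Y :=
  LinearMap.mkContinuous
    { toFun := fun x => (toPt (x : BB 𝕜 A Y)).1 a
      map_add' := fun _ _ => rfl
      map_smul' := fun _ _ => rfl }
    1 (fun x => by rw [one_mul]; exact norm_nd_le (x : BB 𝕜 A Y) a)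

/-- functional on X -/
noncomputable def Dat.evX (b : Fn 𝕜 A Y) : D.X →L[𝕜] 𝕜 := (evB b).comp D.X.subtypeL

/-- extension operator: all coordinates of level at most p are kept -/
noncomputable def Dat.EX (p : ℕ) : BB 𝕜 A Y →L[𝕜] D.X :=
  (D.Pc p).codRestrict D.X (D.Pc_mem p)

/-- the projection on X -/
noncomputable def Dat.PX (p : ℕ) : D.X →L[𝕜] D.X := (D.EX p).comp D.X.subtypeL

theorem Dat.co_apply (γ : ℕ) (x : D.X) : D.co γ x = (toPt (x : BB 𝕜 A Y)).2 γ := rfl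
theorem Dat.nd_apply (a : A) (x : D.X) : D.nd a x = (toPt (x : BB 𝕜 A Y)).1 a := rfl
theorem Dat.evX_apply (b : Fn 𝕜 A Y) (x : D.X) : D.evX b x = ev b (toPt (x : BB 𝕜 A Y)) := rfl
theorem Dat.coe_EX (p : ℕ) (x : BB 𝕜 A Y) : (D.EX p x : BB 𝕜 A Y) = D.Pc p x := rfl
theorem Dat.coe_PX (p : ℕ) (x : D.X) : (D.PX p x : BB 𝕜 A Y) = D.Pc p x := rfl

theorem Dat.X_ext {x y : D.X} (h1 : ∀ a, D.nd a x = D.nd a y) (h2 : ∀ γ, D.co γ x = D.co γ y) :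
    x = y := by
  apply Subtype.ext
  apply toPt_inj
  ext a
  · exact h1 a
  · exact h2 a

theorem Dat.norm_co_le (γ : ℕ) (x : D.X) : ‖D.co γ x‖ ≤ ‖x‖ := norm_sc_le (x : BB 𝕜 A Y) γ
theorem Dat.norm_nd_le (a : A) (x : D.X) : ‖D.nd a x‖ ≤ ‖x‖ := CAL.norm_nd_le (x : BB 𝕜 A Y) a

theorem Dat.norm_X_le {x : D.X} {C : ℝ} (hC : 0 ≤ C) (h1 : ∀ a, ‖D.nd a x‖ ≤ C)
    (h2 : ∀ γ, ‖D.co γ x‖ ≤ C) : ‖x‖ ≤ C :=
  norm_BB_le (x := (x : BB 𝕜 A Y)) hC h1 h2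

theorem Dat.norm_evX_le (b : Fn 𝕜 A Y) (x : D.X) : ‖D.evX b x‖ ≤ nrm b * ‖x‖ :=
  norm_evB_le b (x : BB 𝕜 A Y)

theorem Dat.norm_evX_le' (b : Fn 𝕜 A Y) (x : D.X) {C : ℝ} (h1 : ∀ γ ∈ b.1.support, ‖D.co γ x‖ ≤ C)
    (h2 : ∀ a ∈ b.2.support, ‖D.nd a x‖ ≤ C) : ‖D.evX b x‖ ≤ nrm b * C :=
  norm_ev_le b h1 h2

theorem Dat.norm_EX_le (p : ℕ) (x : BB 𝕜 A Y) : ‖D.EX p x‖ ≤ 2 * ‖x‖ := D.norm_Pc_le p x
theorem Dat.norm_PX_le (p : ℕ) (x : D.X) : ‖D.PX p x‖ ≤ 2 * ‖x‖ := D.norm_Pc_le p (x : BB 𝕜 A Y)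

theorem Dat.PX_PX (p q : ℕ) (x : D.X) : D.PX p (D.PX q x) = D.PX (min p q) x :=
  Subtype.ext (D.Pc_Pc p q (x : BB 𝕜 A Y))

theorem Dat.tendsto_PX (x : D.X) : Tendsto (fun p => D.PX p x) atTop (𝓝 x) := by
  rw [tendsto_subtype_rng]
  exact x.2

theorem Dat.co_PX_le {p γ : ℕ} (x : D.X) (h : D.lev γ ≤ p) : D.co γ (D.PX p x) = D.co γ x :=
  D.P_le p _ γ h

theorem Dat.co_EX_le {p γ : ℕ} (x : BB 𝕜 A Y) (h : D.lev γ ≤ p) :
    D.co γ (D.EX p x) = (toPt x).2 γ := D.P_le p _ γ h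

theorem Dat.co_PX_none {p γ : ℕ} (x : D.X) (h : p < D.lev γ) (hp : D.pred γ = none) :
    D.co γ (D.PX p x) = mi 𝕜 (D.wt γ) * D.evX (D.b γ) (D.PX p x) :=
  D.P_none p _ γ h hp

theorem Dat.co_PX_some {p γ ξ : ℕ} (x : D.X) (h : p < D.lev γ) (hp : D.pred γ = some ξ) :
    D.co γ (D.PX p x) = D.co ξ (D.PX p x) +
      mi 𝕜 (D.wt γ) * (D.evX (D.b γ) (D.PX p x) - D.evX (D.b γ) (D.PX (min p (D.lev ξ)) x)) :=
  D.P_some p _ γ ξ h hp

theorem Dat.nd_PX (p : ℕ) (a : A) (x : D.X) :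
    D.nd a (D.PX p x) = (τ.ret p a).elim 0 (fun b => D.nd b x) :=
  D.P_nd p _ a

theorem Dat.nd_EX (p : ℕ) (a : A) (x : BB 𝕜 A Y) :
    D.nd a (D.EX p x) = (τ.ret p a).elim 0 (toPt x).1 :=
  D.P_nd p _ a

/-- x has range in the interval (s, t] -/
def Dat.InRan (s t : ℕ) (x : D.X) : Prop := D.PX s x = 0 ∧ D.PX t x = x

/-- d*_γ -/
noncomputable def Dat.ds (γ : ℕ) : D.X →L[𝕜] 𝕜 :=
  D.co γ - (D.co γ).comp (D.PX (D.lev γ - 1))

/-- D_a -/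
noncomputable def Dat.dn (a : A) : D.X →L[𝕜] Y :=
  D.nd a - (D.nd a).comp (D.PX (τ.lev a - 1))

end

end CAL
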