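import Pool.Agent.H27.CAL.Space

/-!
# Project CAL: statements of the modules (blocks W, X, R, M)
Every module is a Prop `NAMEStmt`; the module NAME proves `theorem cal_name ... : NAMEStmt ...`,
all other statements may be taken as hypotheses.
-/

open scoped BigOperators ENNReal Topology
open Filter

namespace CAL

/-! ## Block W: combinatorics of families (plain Lean, no analysis) -/

/-- Ptak's lemma for hereditary well-founded families -/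
def PTAKStmt : Prop :=
  ∀ H : Finset ℕ → Prop, Hered H → WFam H → ∀ e : ℝ, 0 < e → ∀ t : ℕ → ℕ, StrictMono t →
    ∃ n, ∃ l : ℕ → ℝ, (∀ s, 0 ≤ l s) ∧ (∀ s, s ∉ (Finset.range n).image t → l s = 0) ∧
      ∑ s ∈ (Finset.range n).image t, l s = 1 ∧ ∀ G, H G → ∑ s ∈ G, l s ≤ e

/-- functional form of Ptak's lemma -/
def PTAKFStmt : Prop :=
  ∀ W : (ℕ → ℝ) → Prop, (∀ g, W g → ∀ s, 0 ≤ g s ∧ g s ≤ 1) →
    (∀ δ : ℝ, 0 < δ → WFam (fun H => ∃ g, W g ∧ ∀ s ∈ H, δ ≤ g s)) →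
    ∀ e : ℝ, 0 < e → ∀ t : ℕ → ℕ, StrictMono t →
      ∃ n l, Good W e ((Finset.range n).image t) l

/-- auxiliary functionals have values in [0,1] -/
def WWBStmt : Prop :=
  ∀ (Ch : Finset ℕ → Prop) (Fam : ℕ → Finset ℕ → Prop) (j : ℕ) (g : ℕ → ℝ),
    WW Ch Fam j g → ∀ s, 0 ≤ g s ∧ g s ≤ 1

/-- WW only depends on the families of smaller index -/
def WWCStmt : Prop :=
  ∀ (Ch : Finset ℕ → Prop) (Fam Fam' : ℕ → Finset ℕ → Prop) (j : ℕ),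
    (∀ i < j, ∀ P, Fam i P ↔ Fam' i P) → ∀ g, WW Ch Fam j g ↔ WW Ch Fam' j g

/-- adding one element keeps a hereditary family well-founded -/
def PLUSStmt : Prop :=
  ∀ H : Finset ℕ → Prop, Hered H → WFam H → WFam (fun G => ∃ x, H (G.erase x))

/-- limit of members of a well-founded family closed under initial segments: the counting
functions are eventually constant along many members -/
def PLIMStmt : Prop :=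
  ∀ (H : Finset ℕ → Prop), (∀ G n, H G → H (G.filter (· < n))) → WFam H →
    ∀ P : ℕ → Finset ℕ, (∀ n, H (P n)) → ∃ c N : ℕ, ∀ M m : ℕ, ∃ n ≥ m,
      ∀ s, N ≤ s → s ≤ M → cnt (P n) s = c

/-- the level families of WW are well-founded -/
def WWFStmt : Prop :=
  ∀ (Ch : Finset ℕ → Prop) (Fam : ℕ → Finset ℕ → Prop) (j : ℕ), Hered Ch → WFam Ch →
    (∀ i < j, (∀ H n, Fam i H → Fam i (H.filter (· < n))) ∧ WFam (Fam i)) →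
    ∀ δ : ℝ, 0 < δ → WFam (fun H => ∃ g, WW Ch Fam j g ∧ ∀ s ∈ H, δ ≤ g s)

/-- existence of the families -/
def FAMStmt : Prop :=
  ∀ Ch : Finset ℕ → Prop, Hered Ch → WFam Ch → Nonempty (FamSys Ch)

/-- good convex means exist on initial segments, which belong to the family -/
def GOODEXStmt : Prop :=
  ∀ {Ch : Finset ℕ → Prop} (F : FamSys Ch) (j : ℕ) (t : ℕ → ℕ), StrictMono t →
    ∃ n l, Good (WW Ch F.Fam j) (epsj j) ((Finset.range n).image t) l ∧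
      F.Fam j ((Finset.range n).image t)

/-- abstract construction of a chain of admissible positions until good means exist.
States a have finite sets of positions H a, the last one is pos a. -/
def RUNStmt.{u} : Prop :=
  ∀ {Ch : Finset ℕ → Prop} (F : FamSys Ch) (j : ℕ) (σ : Type u) (H : σ → Finset ℕ) (pos : σ → ℕ)
    (A Inv : σ → Prop) (R : σ → σ → Prop),
    ((∀ n, F.Fam j {n}) → ∃ a, A a ∧ Inv a ∧ H a = {pos a}) →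
    (∀ a, Inv a → (∀ n, (∀ h ∈ H a, h < n) → F.Fam j (insert n (H a))) →
      ∃ a', Inv a' ∧ R a a' ∧ (∀ h ∈ H a, h < pos a') ∧ H a' = insert (pos a') (H a)) →
    ∃ (n : ℕ) (a : ℕ → σ) (l : ℕ → ℝ), 0 < n ∧ A (a 0) ∧ (∀ r < n, Inv (a r)) ∧
      (∀ r, r + 1 < n → R (a r) (a (r + 1))) ∧
      (∀ r, r + 1 < n → pos (a r) < pos (a (r + 1))) ∧
      (∀ r < n, H (a r) = (Finset.range (r + 1)).image (fun i => pos (a i))) ∧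
      Good (WW Ch F.Fam j) (epsj j) ((Finset.range n).image (fun i => pos (a i))) l

/-- chains of a well-founded tree -/
def CHAINStmt.{u} : Prop :=
  ∀ (A : Type u) [PartialOrder A] (τ : TreeLev A), Hered τ.Chain ∧ WFam τ.Chain

/-- Hahn-Banach: a functional vanishing at x with large real part at v -/
def HBStmt (𝕜 : Type*) [RCLike 𝕜] (X : Type*) [NormedAddCommGroup X] [NormedSpace 𝕜 X] : Prop :=
  ∀ (x v : X) (δ : ℝ), 0 < δ → (∀ c : 𝕜, δ ≤ ‖v - c • x‖) →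
    ∃ g : X →L[𝕜] 𝕜, ‖g‖ ≤ 1 ∧ g x = 0 ∧ δ ≤ RCLike.re (g v)

/-! ## Blocks X, R, M -/

section
variable {𝕜 : Type*} [RCLike 𝕜] {A : Type*} [PartialOrder A] {Y : Type*} [NormedAddCommGroup Y]
  [NormedSpace 𝕜 Y] {τ : TreeLev A}

/-- `D.Anc ξ γ`: ξ belongs to the chain of γ -/
inductive Dat.Anc (D : Dat 𝕜 Y τ) : ℕ → ℕ → Prop
  | refl (γ : ℕ) : Dat.Anc D γ γ
  | step {ξ ζ γ : ℕ} : D.pred γ = some ζ → Dat.Anc D ξ ζ → Dat.Anc D ξ γ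

open Classical in
/-- the germ with value y at the node a and 0 elsewhere -/
noncomputable def sgN (a : A) : Y →L[𝕜] BB 𝕜 A Y :=
  (ContinuousLinearMap.inl 𝕜 _ _).comp
    (lp.singleContinuousLinearMap 𝕜 (fun _ : A => Y) ∞ a)

/-- the germ e_γ -/
noncomputable def sgS (A Y) [NormedAddCommGroup Y] (γ : ℕ) : BB 𝕜 A Y :=
  (0, lp.single (E := fun _ : ℕ => 𝕜) ∞ γ (1 : 𝕜))

/-- the embedding of Y at the node a -/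
noncomputable def Dat.Jn (D : Dat 𝕜 Y τ) (a : A) : Y →L[𝕜] D.X := (D.EX (τ.lev a)).comp (sgN a)

/-- the vector d_γ -/
noncomputable def Dat.dv (D : Dat 𝕜 Y τ) (γ : ℕ) : D.X := D.EX (D.lev γ) (sgS A Y γ)

/-! ### Block X: elementary facts on X -/

/-- ranges -/
def RANStmt (D : Dat 𝕜 Y τ) : Prop :=
  (∀ s t x, D.InRan s t x → ∀ γ, D.lev γ ≤ s → D.co γ x = 0) ∧
  (∀ s t x, D.InRan s t x → ∀ a, τ.lev a ≤ s → D.nd a x = 0) ∧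
  (∀ s t s' t' x, s' ≤ s → t ≤ t' → D.InRan s t x → D.InRan s' t' x) ∧
  (∀ s t x p, D.InRan s t x → p ≤ s → D.PX p x = 0) ∧
  (∀ s t x p, D.InRan s t x → t ≤ p → D.PX p x = x) ∧
  (∀ s t x y, D.InRan s t x → D.InRan s t y → D.InRan s t (x + y)) ∧
  (∀ s t x (c : 𝕜), D.InRan s t x → D.InRan s t (c • x)) ∧
  (∀ s t x, s ≤ t → D.InRan s t (D.PX t x - D.PX s x)) ∧
  (∀ s t x a, D.InRan s t x → D.nd a x ≠ 0 → ∃ b, b ≤ a ∧ s < τ.lev b ∧ τ.lev b ≤ t)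

/-- evaluation of PX (lev ξ) x at a γ above ξ -/
def TAILStmt (D : Dat 𝕜 Y τ) : Prop :=
  ∀ ξ γ x, D.Anc ξ γ → D.co γ (D.PX (D.lev ξ) x) = D.co ξ x

/-- elementary facts on chains -/
def ANCStmt (D : Dat 𝕜 Y τ) : Prop :=
  (∀ ξ γ, D.Anc ξ γ → D.lev ξ ≤ D.lev γ ∧ D.wt ξ = D.wt γ ∧ D.lev ξ ∈ D.Lv γ ∧
    D.Lv ξ ⊆ D.Lv γ) ∧
  (∀ γ, ∀ p ∈ D.Lv γ, ∃ ξ, D.Anc ξ γ ∧ D.lev ξ = p) ∧
  (∀ ξ ζ γ, D.Anc ξ ζ → D.Anc ζ γ → D.Anc ξ γ) ∧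
  (∀ ξ ζ γ, D.Anc ξ γ → D.Anc ζ γ → D.lev ξ ≤ D.lev ζ → D.Anc ξ ζ)

/-- evaluation on a vector whose range is below lev ζ and above the predecessor of ζ -/
def UNSPStmt (D : Dat 𝕜 Y τ) : Prop :=
  ∀ ζ γ s t x, D.Anc ζ γ → D.InRan s t x → t < D.lev ζ → (∀ ξ, D.pred ζ = some ξ → D.lev ξ ≤ s) →
    D.co γ x = mi 𝕜 (D.wt γ) * D.evX (D.b ζ) x

/-- in every gap of the chain of γ the evaluation at γ is one fixed functional -/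
def GAPStmt (D : Dat 𝕜 Y τ) : Prop :=
  ∀ γ c, ∃ b' : Fn 𝕜 A Y, (b' = 0 ∨ ∃ ζ, D.Anc ζ γ ∧ b' = D.b ζ) ∧
    ∀ s t x, s ≤ t → D.InRan s t x → cnt (D.Lv γ) s = c → cnt (D.Lv γ) t = c →
      D.co γ x = mi 𝕜 (D.wt γ) * D.evX b' x

/-- the last step of the chain evaluated at an arbitrary vector -/
def EVALStmt (D : Dat 𝕜 Y τ) : Prop :=
  (∀ γ x, D.pred γ = none → D.co γ x = D.ds γ x + mi 𝕜 (D.wt γ) * D.evX (D.b γ) x) ∧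
  (∀ γ ξ x, D.pred γ = some ξ → D.co γ x = D.ds γ x + D.co ξ x +
    mi 𝕜 (D.wt γ) * (D.evX (D.b γ) x - D.evX (D.b γ) (D.PX (D.lev ξ) x))) ∧
  (∀ γ x, ‖D.ds γ x‖ ≤ ‖x - D.PX (D.lev γ - 1) x‖)

/-- local support: no coordinate of weight w below t, then small coordinates of weight w -/
def LOCSStmt (D : Dat 𝕜 Y τ) : Prop :=
  ∀ (z : BB 𝕜 A Y) t w, (∀ γ, D.lev γ ≤ t → D.wt γ = w → (toPt z).2 γ = 0) →
    ∀ γ, D.wt γ = w → ‖D.co γ (D.EX t z)‖ ≤ 6 * ‖z‖ * (mm w)⁻¹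

/-- coordinates of large weight -/
def LEVWStmt (D : Dat 𝕜 Y τ) : Prop :=
  ∀ t x γ, D.PX t x = x → t < D.wt γ → ‖D.co γ x‖ ≤ (mm (D.wt γ))⁻¹ * ‖x‖

/-- biorthogonality, first part -/
def BIOAStmt (D : Dat 𝕜 Y τ) : Prop :=
  (∀ a b y, D.nd b (D.Jn a y) = (open Classical in if a ≤ b then y else 0)) ∧
  (∀ a b y, D.dn b (D.Jn a y) = (open Classical in if a = b then y else 0)) ∧
  (∀ a γ y, D.ds γ (D.Jn a y) = 0) ∧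
  (∀ a γ, D.dn a (D.dv γ) = 0) ∧
  (∀ β γ, D.ds β (D.dv γ) = if β = γ then 1 else 0) ∧
  (∀ γ, D.co γ (D.dv γ) = 1) ∧
  (∀ a y, D.InRan (τ.lev a - 1) (τ.lev a) (D.Jn a y)) ∧
  (∀ γ, D.InRan (D.lev γ - 1) (D.lev γ) (D.dv γ))

/-- biorthogonality, second part -/
def BIOBStmt (D : Dat 𝕜 Y τ) : Prop :=
  (∀ p a x, τ.lev a ≤ p → D.dn a (D.PX p x) = D.dn a x) ∧
  (∀ p a x, p < τ.lev a → D.dn a (D.PX p x) = 0) ∧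
  (∀ p γ x, D.lev γ ≤ p → D.ds γ (D.PX p x) = D.ds γ x) ∧
  (∀ p γ x, p < D.lev γ → D.ds γ (D.PX p x) = 0) ∧
  (∀ a x, D.nd a x = D.dn a x + (τ.ret (τ.lev a - 1) a).elim 0 (fun b => D.nd b x)) ∧
  (∀ p x, (∀ a, τ.lev a ≤ p → D.nd a x = 0) → (∀ γ, D.lev γ ≤ p → D.co γ x = 0) →
    D.PX p x = 0)

/-- biorthogonality and reconstruction (from BIOA, BIOB, EVAL) -/
def BIOStmt (D : Dat 𝕜 Y τ) : Prop :=
  (∀ a b y, D.nd b (D.Jn a y) = (open Classical in if a ≤ b then y else 0)) ∧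
  (∀ a b y, D.dn b (D.Jn a y) = (open Classical in if a = b then y else 0)) ∧
  (∀ a γ y, D.ds γ (D.Jn a y) = 0) ∧
  (∀ a γ, D.dn a (D.dv γ) = 0) ∧
  (∀ β γ, D.ds β (D.dv γ) = if β = γ then 1 else 0) ∧
  (∀ γ, D.co γ (D.dv γ) = 1) ∧
  (∀ a y, D.InRan (τ.lev a - 1) (τ.lev a) (D.Jn a y)) ∧
  (∀ γ, D.InRan (D.lev γ - 1) (D.lev γ) (D.dv γ)) ∧
  (∀ p a x, τ.lev a ≤ p → D.dn a (D.PX p x) = D.dn a x) ∧
  (∀ p a x, p < τ.lev a → D.dn a (D.PX p x) = 0) ∧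
  (∀ p γ x, D.lev γ ≤ p → D.ds γ (D.PX p x) = D.ds γ x) ∧
  (∀ p γ x, p < D.lev γ → D.ds γ (D.PX p x) = 0) ∧
  (∀ a x, D.nd a x = D.dn a x + (τ.ret (τ.lev a - 1) a).elim 0 (fun b => D.nd b x)) ∧
  (∀ p (N : Finset A) (G : Finset ℕ), (∀ a, a ∈ N ↔ τ.lev a ≤ p) → (∀ γ, γ ∈ G ↔ D.lev γ ≤ p) →
    ∀ x, D.PX p x = ∑ a ∈ N, D.Jn a (D.dn a x) + ∑ γ ∈ G, D.ds γ x • D.dv γ)

/-- functionals on X restricted to PX n are finitely supported functionals -/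
def REPStmt (D : Dat 𝕜 Y τ) : Prop :=
  ∀ (f : D.X →L[𝕜] 𝕜) n, ∃ c : Fn 𝕜 A Y, (∀ β ∈ c.1.support, D.lev β ≤ n) ∧
    (∀ a ∈ c.2.support, τ.lev a ≤ n) ∧ nrm c ≤ 2 * ‖f‖ ∧ ∀ x, f (D.PX n x) = D.evX c x

/-! ### Block R: rapidly increasing sequences -/

/-- rapidly increasing sequence with constant C, ranges (s k, t k], indices j k -/
structure Dat.IsRIS (D : Dat 𝕜 Y τ) (C : ℝ) (x : ℕ → D.X) (s t j : ℕ → ℕ) : Prop where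
  ran : ∀ k, D.InRan (s k) (t k) (x k)
  st : ∀ k, s k < t k
  ts : ∀ k, t k ≤ s (k + 1)
  nm : ∀ k, ‖x k‖ ≤ C
  jt : ∀ k, t k < j (k + 1)
  jm : StrictMono j
  sm : ∀ k γ, D.wt γ < j k → ‖D.co γ (x k)‖ ≤ C * (mm (D.wt γ))⁻¹

/-- x is a rapidly increasing sequence -/
def Dat.RIS (D : Dat 𝕜 Y τ) (x : ℕ → D.X) : Prop := ∃ C s t j, D.IsRIS C x s t j

/-- bounded block sequence -/
def Dat.Block (D : Dat 𝕜 Y τ) (x : ℕ → D.X) (s t : ℕ → ℕ) : Prop :=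
  (∀ k, D.InRan (s k) (t k) (x k)) ∧ (∀ k, s k < t k) ∧ (∀ k, t k ≤ s (k + 1)) ∧
    ∃ C, ∀ k, ‖x k‖ ≤ C

/-- subsequences and scalar multiples of rapidly increasing sequences -/
def SUBStmt (D : Dat 𝕜 Y τ) : Prop :=
  (∀ C x s t j (φ : ℕ → ℕ), D.IsRIS C x s t j → StrictMono φ →
    D.IsRIS C (x ∘ φ) (s ∘ φ) (t ∘ φ) (j ∘ φ)) ∧
  (∀ C x s t j (c : ℕ → 𝕜), D.IsRIS C x s t j → (∀ k, ‖c k‖ ≤ 1) →
    D.IsRIS C (fun k => c k • x k) s t j) ∧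
  (∀ x s t (φ : ℕ → ℕ), D.Block x s t → StrictMono φ → D.Block (x ∘ φ) (s ∘ φ) (t ∘ φ)) ∧
  (∀ C x s t j, D.IsRIS C x s t j → D.Block x s t)

/-- finite system of vectors with weights, for the basic averaging estimate of order j -/
structure Dat.Sys (D : Dat 𝕜 Y τ) (j : ℕ) (C μ : ℝ) (I : Finset ℕ) (x : ℕ → D.X) (s p : ℕ → ℕ)
    (l : ℕ → ℝ) : Prop where
  C0 : 0 ≤ C
  mu0 : 0 ≤ μ
  ran : ∀ k ∈ I, D.InRan (s k) (p k) (x k)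
  sp : ∀ k ∈ I, s k < p k
  ps : ∀ k ∈ I, ∀ k' ∈ I, k < k' → p k ≤ s k'
  nm : ∀ k ∈ I, ‖x k‖ ≤ C
  l0 : ∀ k ∈ I, 0 ≤ l k
  sm : ∀ k ∈ I, ∀ γ, D.wt γ < j → ‖D.co γ (x k)‖ ≤ C * (mm (D.wt γ))⁻¹
  big : ∀ γ, j ≤ D.wt γ → ∀ J ⊆ I, J.Nonempty → ∃ k0 ∈ J,
    ∑ k ∈ J, l k * ‖D.co γ (x k)‖ ≤ C * l k0 + C * μ * ∑ k ∈ J, l k

/-- combination of estimates in the gaps of the chain of γ -/
def COMBStmt (D : Dat 𝕜 Y τ) : Prop :=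
  ∀ {Ch : Finset ℕ → Prop} (F : FamSys Ch) (w : Wts), Rich D F w →
    ∀ j C μ I x s p l, D.Sys j C μ I x s p l → ∀ γ, D.wt γ < j → ∀ B : ℝ, 0 ≤ B → ∀ J ⊆ I,
      (∀ ζ, D.Anc ζ γ → ∀ J' ⊆ J, ∃ g, WW Ch F.Fam j g ∧ (∀ r, g r ≠ 0 → ∃ k ∈ J', r = p k) ∧
        ‖D.evX (D.b ζ) (∑ k ∈ J', (l k : 𝕜) • x k)‖ ≤
          C * ∑ k ∈ J', l k * g (p k) + B * ∑ k ∈ J', l k) →
      ∃ g, WW Ch F.Fam j g ∧ (∀ r, g r ≠ 0 → ∃ k ∈ J, r = p k) ∧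
        ‖∑ k ∈ J, (l k : 𝕜) * D.co γ (x k)‖ ≤
          C * ∑ k ∈ J, l k * g (p k) + B * (mm (D.wt γ))⁻¹ * ∑ k ∈ J, l k

/-- basic averaging estimate at coordinates of weight < j -/
def AVG1Stmt (D : Dat 𝕜 Y τ) : Prop :=
  ∀ {Ch : Finset ℕ → Prop} (F : FamSys Ch) (w : Wts), Rich D F w →
    ∀ j C μ I x s p l, D.Sys j C μ I x s p l → ∀ γ, D.wt γ < j → ∀ J ⊆ I,
      ∃ g, WW Ch F.Fam j g ∧ (∀ r, g r ≠ 0 → ∃ k ∈ J, r = p k) ∧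
        ‖∑ k ∈ J, (l k : 𝕜) * D.co γ (x k)‖ ≤
          C * ∑ k ∈ J, l k * g (p k) + C * μ * (mm (D.wt γ))⁻¹ * ∑ k ∈ J, l k

/-- basic averaging estimate at nodes -/
def AVG2Stmt (D : Dat 𝕜 Y τ) : Prop :=
  ∀ {Ch : Finset ℕ → Prop} (F : FamSys Ch) (w : Wts), Rich D F w →
    ∀ j C μ I x s p l, D.Sys j C μ I x s p l → ∀ a, ∀ J ⊆ I,
      ∃ g, WW Ch F.Fam j g ∧ (∀ r, g r ≠ 0 → ∃ k ∈ J, r = p k) ∧
        ‖∑ k ∈ J, (l k : 𝕜) • D.nd a (x k)‖ ≤ C * ∑ k ∈ J, l k * g (p k)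

/-- averaging estimate at a coordinate of coded weight without code j in its chain -/
def AVGDStmt (D : Dat 𝕜 Y τ) : Prop :=
  ∀ {Ch : Finset ℕ → Prop} (F : FamSys Ch) (w : Wts) (R : Rich D F w),
    ∀ j C I x s p l, D.Sys j C ((mm j)⁻¹) I x s p l →
      (∀ γ, j ≤ D.wt γ → ∀ J ⊆ I, J.Nonempty → ∃ k0 ∈ J,
        ∑ k ∈ J, l k * ‖D.co γ (x k)‖ ≤ C * l k0 + C * (mm (D.wt γ))⁻¹ * ∑ k ∈ J, l k) →
      ∀ γ, D.wt γ ∈ w.O → D.wt γ < j → (∀ ζ, D.Anc ζ γ → D.wt (R.th ζ) ≠ j) → ∀ J ⊆ I,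
        ∃ g, WW Ch F.Fam j g ∧ (∀ r, g r ≠ 0 → ∃ k ∈ J, r = p k) ∧
          ‖∑ k ∈ J, (l k : 𝕜) * D.co γ (x k)‖ ≤
            C * ∑ k ∈ J, l k * g (p k) + C * (mm (D.wt γ))⁻¹ *
              ((mm j)⁻¹ * (mm (D.wt γ))⁻¹ ^ 2 + (mm j)⁻¹ ^ 2) * ∑ k ∈ J, l k

/-- norm of good convex combinations -/
def AVGNStmt (D : Dat 𝕜 Y τ) : Prop :=
  ∀ {Ch : Finset ℕ → Prop} (F : FamSys Ch) (w : Wts), Rich D F w →
    ∀ j C μ I x s p l (e : ℝ), D.Sys j C μ I x s p l → ∑ k ∈ I, l k ≤ 1 → 0 ≤ e →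
      (∀ g, WW Ch F.Fam j g → ∑ k ∈ I, l k * g (p k) ≤ e) →
      ‖∑ k ∈ I, (l k : 𝕜) • x k‖ ≤ C * (e + μ) ∧
      (∀ a, ‖D.nd a (∑ k ∈ I, (l k : 𝕜) • x k)‖ ≤ C * e) ∧
      (∀ γ, D.wt γ < j → ‖D.co γ (∑ k ∈ I, (l k : 𝕜) • x k)‖ ≤
        C * (e + μ * (mm (D.wt γ))⁻¹)) ∧
      (∀ γ, j ≤ D.wt γ → ‖D.co γ (∑ k ∈ I, (l k : 𝕜) • x k)‖ ≤ C * (e + μ))

/-- pieces of rapidly increasing sequences form systems; μ = 1/mm j always, and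
μ = 1/mm (j+1) if the weight j is not used; at weights > j the bound with 1/mm (wt γ) -/
def RSYSStmt (D : Dat 𝕜 Y τ) : Prop :=
  ∀ C x s t jj (I : Finset ℕ) (p : ℕ → ℕ) (l : ℕ → ℝ) j μ, D.IsRIS C x s t jj →
    (∀ k ∈ I, j < jj k) → (∀ k ∈ I, t k ≤ p k) → (∀ k ∈ I, ∀ k' ∈ I, k < k' → p k ≤ s k') →
    (∀ k ∈ I, 0 ≤ l k) → 0 ≤ μ → (∀ γ, j ≤ D.wt γ → (mm (D.wt γ))⁻¹ ≤ μ) →
    D.Sys j C μ I x s p l ∧
    ∀ γ, j ≤ D.wt γ → ∀ J ⊆ I, J.Nonempty → ∃ k0 ∈ J,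
      ∑ k ∈ J, l k * ‖D.co γ (x k)‖ ≤ C * l k0 + C * (mm (D.wt γ))⁻¹ * ∑ k ∈ J, l k

/-- averages of rapidly increasing sequences with respect to good means of order j -/
def RAVStmt (D : Dat 𝕜 Y τ) : Prop :=
  ∀ {Ch : Finset ℕ → Prop} (F : FamSys Ch) (w : Wts) (R : Rich D F w),
    ∀ C x s t jj (j n : ℕ) (p : ℕ → ℕ) (l : ℕ → ℝ), D.IsRIS C x s t jj → j < jj 0 →
      StrictMono p → (∀ r < n, t r ≤ p r) → (∀ r, r + 1 < n → p r ≤ s (r + 1)) →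
      Good (WW Ch F.Fam j) (epsj j) ((Finset.range n).image p) l →
      0 < n ∧ ∑ r ∈ Finset.range n, l (p r) = 1 ∧
      D.InRan (s 0) (t (n - 1)) (∑ r ∈ Finset.range n, (l (p r) : 𝕜) • x r) ∧
      ‖∑ r ∈ Finset.range n, (l (p r) : 𝕜) • x r‖ ≤ 2 * C * (mm j)⁻¹ ∧
      ((∀ γ, D.wt γ ≠ j) →
        ‖∑ r ∈ Finset.range n, (l (p r) : 𝕜) • x r‖ ≤ 2 * C * (mm j)⁻¹ ^ 2) ∧
      (∀ γ, D.wt γ < j → ‖D.co γ (∑ r ∈ Finset.range n, (l (p r) : 𝕜) • x r)‖ ≤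
        2 * C * (mm j)⁻¹ * (mm (D.wt γ))⁻¹) ∧
      (∀ γ, D.wt γ ∈ w.O → D.wt γ < j → (∀ ζ, D.Anc ζ γ → D.wt (R.th ζ) ≠ j) →
        ‖D.co γ (∑ r ∈ Finset.range n, (l (p r) : 𝕜) • x r)‖ ≤
          3 * C * (mm j)⁻¹ * (mm (D.wt γ))⁻¹ ^ 2)

/-- splitting of a vector into a part with small weights and a part with large weights -/
def SPLITStmt (D : Dat 𝕜 Y τ) : Prop :=
  ∀ (s t N : ℕ) (x : D.X), s ≤ t → D.InRan s t x → ∃ u v : D.X, x = u + v ∧ D.InRan s t u ∧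
    D.InRan s t v ∧ ‖u‖ ≤ 2 * ‖x‖ ∧ ‖v‖ ≤ 2 * ‖x‖ ∧
    (∀ γ, ‖D.co γ u‖ ≤ 6 * ‖x‖ * mm N * (mm (D.wt γ))⁻¹) ∧
    (∀ γ, D.wt γ ≤ N → ‖D.co γ v‖ ≤ 6 * ‖x‖ * (mm (D.wt γ))⁻¹)

/-- criterion: operators which are null on rapidly increasing sequences are null on bounded
block sequences -/
def CRITStmt (D : Dat 𝕜 Y τ) (Z : Type*) [NormedAddCommGroup Z] [NormedSpace 𝕜 Z] : Prop :=
  ∀ (T : ℕ → D.X →L[𝕜] Z) (M : ℝ), (∀ k x, ‖T k x‖ ≤ M * ‖x‖) →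
    (∀ x, D.RIS x → ∀ φ : ℕ → ℕ, StrictMono φ → Tendsto (fun k => T (φ k) (x k)) atTop (𝓝 0)) →
    ∀ x s t, D.Block x s t → Tendsto (fun k => T k (x k)) atTop (𝓝 0)

/-- rapidly increasing sequences are weakly null -/
def RNULLStmt (D : Dat 𝕜 Y τ) : Prop :=
  ∀ {Ch : Finset ℕ → Prop} (F : FamSys Ch) (w : Wts), Rich D F w →
    ∀ (f : D.X →L[𝕜] 𝕜) x, D.RIS x → Tendsto (fun k => f (x k)) atTop (𝓝 0)

/-- bounded block sequences are weakly null, the decomposition is shrinking -/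
def BNULLStmt (D : Dat 𝕜 Y τ) : Prop :=
  ∀ {Ch : Finset ℕ → Prop} (F : FamSys Ch) (w : Wts), Rich D F w →
  (∀ (f : D.X →L[𝕜] 𝕜) x s t, D.Block x s t → Tendsto (fun k => f (x k)) atTop (𝓝 0)) ∧
  (∀ (f : D.X →L[𝕜] 𝕜) (e : ℝ), 0 < e → ∃ N, ∀ n ≥ N, ∀ x, ‖f (x - D.PX n x)‖ ≤ e * ‖x‖)

/-- a null criterion: if an operator valued sequence is null on block sequences, its tails are
small in norm -/
def TAILSStmt (D : Dat 𝕜 Y τ) (Z : Type*) [NormedAddCommGroup Z] [NormedSpace 𝕜 Z] : Prop :=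
  ∀ (T : ℕ → D.X →L[𝕜] Z) (M : ℝ), (∀ k x, ‖T k x‖ ≤ M * ‖x‖) →
    (∀ x s t, D.Block x s t → ∀ φ : ℕ → ℕ, StrictMono φ →
      Tendsto (fun k => T (φ k) (x k)) atTop (𝓝 0)) →
    ∀ e : ℝ, 0 < e → ∃ N, ∀ n ≥ N, ∀ k ≥ N, ∀ x, ‖T k (x - D.PX n x)‖ ≤ e * ‖x‖

/-- seminormalised rapidly increasing sequences exist -/
def REXStmt (D : Dat 𝕜 Y τ) : Prop :=
  ∀ {Ch : Finset ℕ → Prop} (F : FamSys Ch) (w : Wts), Rich D F w →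
    ∃ C x s t j, D.IsRIS C x s t j ∧ ∀ k, 1 ≤ ‖x k‖

/-- sums of two interlaced rapidly increasing sequences -/
def MIXStmt (D : Dat 𝕜 Y τ) : Prop :=
  ∀ x y, D.RIS x → D.RIS y → ∃ a b q : ℕ → ℕ, StrictMono a ∧ StrictMono b ∧
    D.RIS (fun k => x (a k) + y (b k)) ∧ ∀ k, D.PX (q k) (x (a k)) = x (a k) ∧
      D.PX (q k) (y (b k)) = 0

/-! ### Block M: main argument -/

/-- one step of the construction of a chain of free weight -/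
def STEPStmt (D : Dat 𝕜 Y τ) : Prop :=
  ∀ {Ch : Finset ℕ → Prop} (F : FamSys Ch) (w : Wts), Rich D F w →
    ∀ j ∈ w.E1 ∪ w.E2, ∀ (z z' : D.X) (f : D.X →L[𝕜] 𝕜) (s : ℕ), ‖f‖ ≤ 1 →
      (∀ x, f (D.PX s x) = 0) → ∀ e : ℝ, 0 < e → ∀ ξ : Option ℕ,
      (∀ ζ, ξ = some ζ → D.wt ζ = j ∧ D.lev ζ ≤ s) →
      ∃ N, ∀ p ≥ N, (ξ = none → F.Fam j {p}) → (∀ ζ, ξ = some ζ → F.Fam j (insert p (D.Lv ζ))) →
        ∃ γ, D.lev γ = p ∧ D.wt γ = j ∧ D.pred γ = ξ ∧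
          (∀ u ∈ ({z, z'} : Set D.X),
            ‖D.co γ u - ξ.elim 0 (fun ζ => D.co ζ u) - 2⁻¹ * mi 𝕜 j * f u‖ ≤ e ∧
            ∀ γ', D.Anc γ γ' → ‖D.co γ' u - D.co γ u‖ ≤ e)

/-- chain building for free weights -/
def CBStmt (D : Dat 𝕜 Y τ) : Prop :=
  ∀ {Ch : Finset ℕ → Prop} (F : FamSys Ch) (w : Wts), Rich D F w →
    ∀ j ∈ w.E1 ∪ w.E2, ∀ (z z' : ℕ → D.X) (f : ℕ → D.X →L[𝕜] 𝕜) (s t : ℕ → ℕ),
      (∀ k, ‖f k‖ ≤ 1) → (∀ k x, f k (D.PX (s k) x) = 0) → Tendsto s atTop atTop →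
      (∀ γ, Tendsto (fun k => D.co γ (z k)) atTop (𝓝 0)) →
      (∀ γ, Tendsto (fun k => D.co γ (z' k)) atTop (𝓝 0)) →
      ∀ (e : ℝ), 0 < e → ∀ K0 p0 : ℕ,
      ∃ (n : ℕ) (κ p : ℕ → ℕ) (η : ℕ) (l : ℕ → ℝ), StrictMono κ ∧ StrictMono p ∧
        K0 ≤ κ 0 ∧ p0 ≤ s (κ 0) ∧
        (∀ r < n, t (κ r) ≤ p r) ∧ (∀ r, r + 1 < n → p r ≤ s (κ (r + 1))) ∧
        Good (WW Ch F.Fam j) (epsj j) ((Finset.range n).image p) l ∧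
        D.wt η = j ∧ (∀ r < n, p r ≤ D.lev η) ∧
        ∀ r < n, ‖D.co η (z (κ r)) - 2⁻¹ * mi 𝕜 j * f (κ r) (z (κ r))‖ ≤ e ∧
          ‖D.co η (z' (κ r)) - 2⁻¹ * mi 𝕜 j * f (κ r) (z' (κ r))‖ ≤ e

/-- incomparability: operators between spaces with disjoint weights -/
def INCStmt (D : Dat 𝕜 Y τ) {A' : Type*} [PartialOrder A'] {Y' : Type*} [NormedAddCommGroup Y']
    [NormedSpace 𝕜 Y'] {τ' : TreeLev A'} (D' : Dat 𝕜 Y' τ') : Prop :=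
  ∀ {Ch : Finset ℕ → Prop} (F : FamSys Ch) (w w' : Wts), Rich D F w → Rich D' F w' →
    Disjoint w.L w'.L → ∀ (R : D.X →L[𝕜] D'.X) x, D.RIS x → ∀ N : ℕ → ℕ, StrictMono N →
      Tendsto (fun k => R (x k) - D'.PX (N k) (R (x k))) atTop (𝓝 0)

/-- images of rapidly increasing sequences have small initial parts -/
def Dat.PT (D : Dat 𝕜 Y τ) : Prop :=
  ∀ (T : D.X →L[𝕜] D.X) x, D.RIS x → ∀ p, Tendsto (fun k => D.PX p (T (x k))) atTop (𝓝 0)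

/-- exact pairs with value 0 -/
structure Dat.Exact (D : Dat 𝕜 Y τ) (O : Set ℕ) (th : ℕ → ℕ) (C e : ℝ) (j p0 t : ℕ) (y : D.X)
    (η : ℕ) : Prop where
  ran : D.InRan p0 t y
  pt : p0 < t
  lt : t < D.lev η
  wt : D.wt η = j
  nm : ‖y‖ ≤ C
  sm : ∀ γ, D.wt γ < j → ‖D.co γ y‖ ≤ C * (mm (D.wt γ))⁻¹
  z : ‖D.co η y‖ ≤ e
  dep : ∀ γ, D.wt γ ∈ O → D.wt γ < j → (∀ ζ, D.Anc ζ γ → D.wt (th ζ) ≠ j) →
    ‖D.co γ y‖ ≤ C * (mm (D.wt γ))⁻¹ ^ 2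

/-- construction of exact pairs -/
def EXACTStmt (D : Dat 𝕜 Y τ) : Prop :=
  ∀ {Ch : Finset ℕ → Prop} (F : FamSys Ch) (w : Wts) (R : Rich D F w) (T : D.X →L[𝕜] D.X)
    (C : ℝ) x s t jj, D.IsRIS C x s t jj →
    (∀ p, Tendsto (fun k => D.PX p (T (x k))) atTop (𝓝 0)) →
    ∀ (f : ℕ → D.X →L[𝕜] 𝕜) (s' : ℕ → ℕ) (δ : ℝ), 0 < δ → (∀ k, ‖f k‖ ≤ 1) →
      (∀ k x, f k (D.PX (s' k) x) = 0) → Tendsto s' atTop atTop → (∀ k, f k (x k) = 0) →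
      (∀ k, δ ≤ RCLike.re (f k (T (x k)))) →
      ∀ j ∈ w.E1 ∪ w.E2, ∀ (p0 : ℕ) (e : ℝ), 0 < e →
        ∃ y t' η, D.Exact w.O R.th (4 * C) e j p0 t' y η ∧ ‖D.PX p0 (T y)‖ ≤ e ∧
          δ / 4 ≤ RCLike.re (D.co η (T y))

/-- dependent sequences of exact pairs with value 0 -/
structure Dat.DepSeq (D : Dat 𝕜 Y τ) {Ch : Finset ℕ → Prop} {F : FamSys Ch} {w : Wts}
    (R : Rich D F w) (C : ℝ) (j0 n : ℕ) (y : ℕ → D.X) (t η ξ : ℕ → ℕ) : Prop where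
  ex : ∀ r < n, D.Exact w.O R.th C ((mm j0)⁻¹) (D.wt (η r))
    (if r = 0 then 0 else D.lev (ξ (r - 1))) (t r) (y r) (η r)
  wt : ∀ r < n, D.wt (ξ r) = j0
  lv : ∀ r < n, D.lev (η r) < D.lev (ξ r)
  th : ∀ r < n, R.th (ξ r) = η r
  none : D.pred (ξ 0) = none
  some : ∀ r, r + 1 < n → D.pred (ξ (r + 1)) = some (ξ r)

/-- coding comparison: at a coordinate of weight j0 all members of a dependent sequence except one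
are very small -/
def DEPBStmt (D : Dat 𝕜 Y τ) : Prop :=
  ∀ {Ch : Finset ℕ → Prop} (F : FamSys Ch) (w : Wts) (R : Rich D F w) (C : ℝ) (j0 n : ℕ)
    (y : ℕ → D.X) (t η ξ : ℕ → ℕ), 1 ≤ C → j0 ∈ w.O → D.DepSeq R C j0 n y t η ξ →
    (∀ r < n, j0 < D.wt (η r)) ∧
    (∀ r, r + 1 < n → D.lev (ξ r) < D.wt (η (r + 1))) ∧
    ∀ γ, D.wt γ = j0 → ∃ r0, ∀ r < n, r ≠ r0 → ‖D.co γ (y r)‖ ≤ C * (mm j0)⁻¹ ^ 2

/-- upper estimate for dependent sequences of exact pairs with value 0 -/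
def DEPStmt (D : Dat 𝕜 Y τ) : Prop :=
  ∀ {Ch : Finset ℕ → Prop} (F : FamSys Ch) (w : Wts) (R : Rich D F w) (C : ℝ) (j0 n : ℕ)
    (y : ℕ → D.X) (t η ξ : ℕ → ℕ) (l : ℕ → ℝ), 1 ≤ C → j0 ∈ w.O → D.DepSeq R C j0 n y t η ξ →
    Good (WW Ch F.Fam j0) (epsj j0) ((Finset.range n).image (fun r => D.lev (ξ r))) l →
    ∑ r ∈ Finset.range n, l (D.lev (ξ r)) = 1 ∧
    ‖∑ r ∈ Finset.range n, (l (D.lev (ξ r)) : 𝕜) • y r‖ ≤ 3 * C * (mm j0)⁻¹ ^ 2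

/-- construction of dependent sequences, given exact pairs of all free weights -/
def DCBStmt (D : Dat 𝕜 Y τ) : Prop :=
  ∀ {Ch : Finset ℕ → Prop} (F : FamSys Ch) (w : Wts) (R : Rich D F w) (T : D.X →L[𝕜] D.X)
    (C δ : ℝ),
    (∀ j ∈ w.E1 ∪ w.E2, ∀ (p0 : ℕ) (e : ℝ), 0 < e →
      ∃ y t' η, D.Exact w.O R.th C e j p0 t' y η ∧ ‖D.PX p0 (T y)‖ ≤ e ∧
        δ ≤ RCLike.re (D.co η (T y))) →
    ∀ j0 ∈ w.O, ∀ e : ℝ, 0 < e → ∃ (n : ℕ) (y : ℕ → D.X) (t η ξ : ℕ → ℕ) (l : ℕ → ℝ), 0 < n ∧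
      D.DepSeq R C j0 n y t η ξ ∧
      Good (WW Ch F.Fam j0) (epsj j0) ((Finset.range n).image (fun r => D.lev (ξ r))) l ∧
      (∀ r < n, (mm j0)⁻¹ * δ - e ≤ RCLike.re (D.co (ξ (n - 1)) (T (y r))))

/-- exact pairs on which T has large values do not exist for all free weights -/
def MAINBStmt (D : Dat 𝕜 Y τ) : Prop :=
  ∀ {Ch : Finset ℕ → Prop} (F : FamSys Ch) (w : Wts) (R : Rich D F w) (T : D.X →L[𝕜] D.X)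
    (C δ : ℝ), 1 ≤ C → 0 < δ →
    ¬ (∀ j ∈ w.E1 ∪ w.E2, ∀ (p0 : ℕ) (e : ℝ), 0 < e →
      ∃ y t' η, D.Exact w.O R.th C e j p0 t' y η ∧ ‖D.PX p0 (T y)‖ ≤ e ∧
        δ ≤ RCLike.re (D.co η (T y)))

/-- main lemma: Tx is close to the multiples of x on rapidly increasing sequences -/
def MAINStmt (D : Dat 𝕜 Y τ) : Prop :=
  ∀ {Ch : Finset ℕ → Prop} (F : FamSys Ch) (w : Wts), Rich D F w → ∀ (T : D.X →L[𝕜] D.X) x,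
    D.RIS x → (∀ p, Tendsto (fun k => D.PX p (T (x k))) atTop (𝓝 0)) →
    ∀ δ : ℝ, 0 < δ → ∃ K, ∀ k ≥ K, ∃ c : 𝕜, ‖T (x k) - c • x k‖ ≤ δ

/-- one scalar for all rapidly increasing sequences -/
def SCALStmt (D : Dat 𝕜 Y τ) : Prop :=
  ∀ {Ch : Finset ℕ → Prop} (F : FamSys Ch) (w : Wts), Rich D F w → D.PT →
    ∀ T : D.X →L[𝕜] D.X, ∃ c : 𝕜, ∀ x, D.RIS x → Tendsto (fun k => T (x k) - c • x k) atTop (𝓝 0)

/-- every operator is a multiple of the identity plus an operator with small tails -/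
def OPERStmt (D : Dat 𝕜 Y τ) : Prop :=
  ∀ {Ch : Finset ℕ → Prop} (F : FamSys Ch) (w : Wts), Rich D F w → D.PT →
    ∀ T : D.X →L[𝕜] D.X, ∃ c : 𝕜, ∀ e : ℝ, 0 < e → ∃ N, ∀ n ≥ N, ∀ x,
      ‖T (x - D.PX n x) - c • (x - D.PX n x)‖ ≤ e * ‖x‖

end

end CAL
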