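import Pool.Agent.H27.CAL.Stmts

/-!
# Project CAL: statements of the modules (blocks G, H, E, K) and the final statement
-/

open scoped BigOperators ENNReal Topology
open Filter

namespace CAL

/-! ## Block G: construction of the data -/

section
variable {𝕜 : Type*} [RCLike 𝕜] {A : Type*} [PartialOrder A] {Y : Type*} [NormedAddCommGroup Y]
  [NormedSpace 𝕜 Y] {τ : TreeLev A}

variable (𝕜 Y) in
/-- the data without the extension operators -/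
structure Pre (τ : TreeLev A) where
  lev : ℕ → ℕ
  wt : ℕ → ℕ
  pred : ℕ → Option ℕ
  b : ℕ → Fn 𝕜 A Y
  Lv : ℕ → Finset ℕ
  lev_pos : ∀ γ, 0 < lev γ
  fin : ∀ n, {γ | lev γ ≤ n}.Finite
  wt_le : ∀ γ, wt γ ≤ lev γ
  pred_lev : ∀ γ ξ, pred γ = some ξ → lev ξ < lev γ
  pred_wt : ∀ γ ξ, pred γ = some ξ → wt ξ = wt γ
  b_norm : ∀ γ, nrm (b γ) ≤ 1
  b_sc : ∀ γ, ∀ β ∈ (b γ).1.support, lev β < lev γ
  b_nd : ∀ γ, ∀ a ∈ (b γ).2.support, τ.lev a < lev γ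
  Lv_none : ∀ γ, pred γ = none → Lv γ = {lev γ}
  Lv_some : ∀ γ ξ, pred γ = some ξ → Lv γ = insert (lev γ) (Lv ξ)

/-- richness of the data without extension operators (same fields as `Rich`) -/
structure PreRich (D : Pre 𝕜 Y τ) {Ch : Finset ℕ → Prop} (F : FamSys Ch) (w : Wts) where
  sg : ℕ → ℕ
  th : ℕ → ℕ
  sg_inj : Function.Injective sg
  sg_mem : ∀ γ, sg γ ∈ w.E2
  sg_lt : ∀ γ, D.lev γ < sg γ
  wt_mem : ∀ γ, D.wt γ ∈ w.L
  adm : ∀ γ, F.Fam (D.wt γ) (D.Lv γ)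
  odd_b : ∀ γ, D.wt γ ∈ w.O → D.b γ = (Finsupp.single (th γ) 1, 0)
  odd_none : ∀ γ, D.wt γ ∈ w.O → D.pred γ = none → D.wt (th γ) ∈ w.E1 ∧ D.wt γ < D.wt (th γ)
  odd_some : ∀ γ ξ, D.wt γ ∈ w.O → D.pred γ = some ξ → D.wt (th γ) = sg ξ
  even_rich : ∀ j ∈ w.E1 ∪ w.E2, ∀ (m : ℕ) (c : Fn 𝕜 A Y), nrm c ≤ 1 →
    (∀ β ∈ c.1.support, D.lev β ≤ m) → (∀ a ∈ c.2.support, τ.lev a ≤ m) → ∀ δ > (0 : ℝ),
    ∃ n0, ∀ n ≥ n0, ∀ ξ : Option ℕ,
      (ξ = none → F.Fam j {n}) →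
      (∀ ζ, ξ = some ζ → D.wt ζ = j ∧ D.lev ζ < n ∧ F.Fam j (insert n (D.Lv ζ))) →
      ∃ γ, D.lev γ = n ∧ D.wt γ = j ∧ D.pred γ = ξ ∧ nrm (D.b γ - c) ≤ δ
  odd_rich : ∀ j ∈ w.O, ∀ (η n : ℕ) (ξ : Option ℕ), D.lev η < n → j ≤ n →
      (ξ = none → F.Fam j {n} ∧ D.wt η ∈ w.E1 ∧ j < D.wt η) →
      (∀ ζ, ξ = some ζ → D.wt ζ = j ∧ D.lev ζ < n ∧ F.Fam j (insert n (D.Lv ζ)) ∧
        D.wt η = sg ζ) →
      ∃ γ, D.lev γ = n ∧ D.wt γ = j ∧ D.pred γ = ξ ∧ th γ = η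

/-- the extension operators exist -/
def PEXStmt (E : Pre 𝕜 Y τ) : Prop :=
  ∃ D : Dat 𝕜 Y τ, D.lev = E.lev ∧ D.wt = E.wt ∧ D.pred = E.pred ∧ D.b = E.b ∧ D.Lv = E.Lv

variable (𝕜 A Y) in
/-- records for the construction of the data -/
structure Rc where
  lev : ℕ
  wt : ℕ
  pred : Option ℕ
  b : Fn 𝕜 A Y
  Lv : Finset ℕ
  th : ℕ

instance : Inhabited (Rc 𝕜 A Y) := ⟨⟨0, 0, none, 0, ∅, 0⟩⟩

/-- the coding function: the element number pair γ (level + 1) of E2 -/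
noncomputable def Wts.sgf (w : Wts) (γ n : ℕ) : ℕ :=
  Nat.nth (fun i => i ∈ w.E2) (Nat.pair γ (n + 1))

/-- ρ is an admissible new record of level n, the old records being l 0, ..., l (N - 1) -/
structure Valid (τ : TreeLev A) {Ch : Finset ℕ → Prop} (F : FamSys Ch) (w : Wts)
    (net : ℕ → Finset ℕ → Finset A → Finset (Fn 𝕜 A Y)) (n N : ℕ) (l : ℕ → Rc 𝕜 A Y)
    (ρ : Rc 𝕜 A Y) : Prop where
  lev : ρ.lev = n
  pos : 0 < n
  wt : ρ.wt ≤ n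
  pred : ∀ ξ, ρ.pred = some ξ → ξ < N ∧ (l ξ).wt = ρ.wt
  lv0 : ρ.pred = none → ρ.Lv = {n}
  lv1 : ∀ ξ, ρ.pred = some ξ → ρ.Lv = insert n (l ξ).Lv
  fam : F.Fam ρ.wt ρ.Lv
  cases : (ρ.wt ∈ w.E1 ∪ w.E2 ∧ ρ.th = 0 ∧ ∃ T : Finset A, (∀ a, a ∈ T ↔ τ.lev a < n) ∧
      ρ.b ∈ net n (Finset.range N) T) ∨
    (ρ.wt ∈ w.O ∧ ρ.th < N ∧ ρ.b = (Finsupp.single ρ.th 1, 0) ∧
      (ρ.pred = none → (l ρ.th).wt ∈ w.E1 ∧ ρ.wt < (l ρ.th).wt) ∧
      (∀ ξ, ρ.pred = some ξ → (l ρ.th).wt = w.sgf ξ (l ξ).lev))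

/-- the properties of the nets (the conclusion of NET) -/
def IsNet (net : ℕ → Finset ℕ → Finset A → Finset (Fn 𝕜 A Y)) : Prop :=
    (∀ n S T, ∀ c ∈ net n S T, nrm c ≤ 1 ∧ c.1.support ⊆ S ∧ c.2.support ⊆ T) ∧
    ∀ (c : Fn 𝕜 A Y), nrm c ≤ 1 → ∀ δ : ℝ, 0 < δ → ∃ n0, ∀ n ≥ n0, ∀ S T,
      c.1.support ⊆ S → c.2.support ⊆ T → ∃ c' ∈ net n S T, nrm (c' - c) ≤ δ

variable (𝕜 A Y) in
/-- finite nets of functionals -/
def NETStmt : Prop :=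
  TopologicalSpace.SeparableSpace (Y →L[𝕜] 𝕜) →
  ∃ net : ℕ → Finset ℕ → Finset A → Finset (Fn 𝕜 A Y), IsNet net

/-- the set of admissible new records is finite, and nonempty for infinitely many levels -/
def BLDFStmt (τ : TreeLev A) (net : ℕ → Finset ℕ → Finset A → Finset (Fn 𝕜 A Y)) : Prop :=
  IsNet net → ∀ {Ch : Finset ℕ → Prop} (F : FamSys Ch) (w : Wts),
    (∀ n N l, {ρ | Valid τ F w net n N l ρ}.Finite) ∧
    (∀ n, ∃ m ≥ n, ∀ N l, ∃ ρ, Valid τ F w net m N l ρ)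

/-- facts on the coding function -/
def SGFStmt : Prop :=
  ∀ w : Wts, (∀ γ n, w.sgf γ n ∈ w.E2) ∧ (∀ γ n, n < w.sgf γ n) ∧
    (∀ γ n γ' n', w.sgf γ n = w.sgf γ' n' → γ = γ')

/-- the sequence of records: len n is the number of records of level < n -/
structure RecSeq (τ : TreeLev A) {Ch : Finset ℕ → Prop} (F : FamSys Ch) (w : Wts)
    (net : ℕ → Finset ℕ → Finset A → Finset (Fn 𝕜 A Y)) (r : ℕ → Rc 𝕜 A Y) (len : ℕ → ℕ) :
    Prop where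
  mono : Monotone len
  lev : ∀ γ, len (r γ).lev ≤ γ ∧ γ < len ((r γ).lev + 1)
  valid : ∀ γ, Valid τ F w net (r γ).lev (len (r γ).lev) r (r γ)
  all : ∀ n ρ, Valid τ F w net n (len n) r ρ → ∃ γ, r γ = ρ

/-- existence of the sequence of records (from REC and BLDF) -/
def BSEQStmt (τ : TreeLev A) (net : ℕ → Finset ℕ → Finset A → Finset (Fn 𝕜 A Y)) : Prop :=
  IsNet net → ∀ {Ch : Finset ℕ → Prop} (F : FamSys Ch) (w : Wts),
    ∃ (r : ℕ → Rc 𝕜 A Y) (len : ℕ → ℕ), RecSeq τ F w net r len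

/-- existence of rich data, without extension operators -/
def BUILDStmt (τ : TreeLev A) (Y : Type*) [NormedAddCommGroup Y] [NormedSpace 𝕜 Y] : Prop :=
  TopologicalSpace.SeparableSpace (Y →L[𝕜] 𝕜) →
  ∀ {Ch : Finset ℕ → Prop} (F : FamSys Ch) (w : Wts), ∃ D : Pre 𝕜 Y τ, Nonempty (PreRich D F w)

/-- existence of rich data -/
def RICHEXStmt (τ : TreeLev A) (Y : Type*) [NormedAddCommGroup Y] [NormedSpace 𝕜 Y] : Prop :=
  TopologicalSpace.SeparableSpace (Y →L[𝕜] 𝕜) →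
  ∀ {Ch : Finset ℕ → Prop} (F : FamSys Ch) (w : Wts), (∀ G, τ.Chain G → Ch G) →
    ∃ D : Dat 𝕜 Y τ, Nonempty (Rich D F w)

end

/-- recursive construction of a sequence by finite blocks, each computed from the list of the
previous terms -/
def RECStmt.{u} : Prop :=
  ∀ (R : Type u) [Inhabited R] (new : ℕ → List R → List R),
    (∀ n, ∃ m ≥ n, ∀ l, new m l ≠ []) →
    ∃ (r : ℕ → R) (len : ℕ → ℕ), len 0 = 0 ∧ Monotone len ∧ Tendsto len atTop atTop ∧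
      ∀ n, (List.range' (len n) (len (n + 1) - len n)).map r = new n ((List.range (len n)).map r)

/-! ## Block H: the case of no nodes (Argyros-Haydon space) -/

section
variable {𝕜 : Type*} [RCLike 𝕜] {A : Type*} [PartialOrder A] {Y : Type*} [NormedAddCommGroup Y]
  [NormedSpace 𝕜 Y] {τ : TreeLev A}

/-- without nodes the images condition holds -/
def HPTStmt (D : Dat 𝕜 Y τ) : Prop :=
  IsEmpty A → ∀ {Ch : Finset ℕ → Prop} (F : FamSys Ch) (w : Wts), Rich D F w → D.PT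

/-- without nodes the projections have finite rank: they are compact -/
def HFRStmt (D : Dat 𝕜 Y τ) (Z : Type*) [NormedAddCommGroup Z] [NormedSpace 𝕜 Z] : Prop :=
  IsEmpty A → ∀ p (T : D.X →L[𝕜] Z), IsCompactOperator (T.comp (D.PX p))

/-- scalar plus compact -/
def HSCStmt [CompleteSpace Y] (D : Dat 𝕜 Y τ) : Prop :=
  IsEmpty A → ∀ {Ch : Finset ℕ → Prop} (F : FamSys Ch) (w : Wts), Rich D F w →
    ∀ T : D.X →L[𝕜] D.X, ∃ c : 𝕜, IsCompactOperator (T - c • ContinuousLinearMap.id 𝕜 D.X)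

/-- separable dual -/
def HSEPStmt (D : Dat 𝕜 Y τ) : Prop :=
  IsEmpty A → ∀ {Ch : Finset ℕ → Prop} (F : FamSys Ch) (w : Wts), Rich D F w →
    TopologicalSpace.SeparableSpace (D.X →L[𝕜] 𝕜)

/-- a normalised weakly null sequence -/
def HWNStmt (D : Dat 𝕜 Y τ) : Prop :=
  ∀ {Ch : Finset ℕ → Prop} (F : FamSys Ch) (w : Wts), Rich D F w →
    ∃ y : ℕ → D.X, (∀ k, ‖y k‖ = 1) ∧ ∀ f : D.X →L[𝕜] 𝕜, Tendsto (fun k => f (y k)) atTop (𝓝 0)

end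

/-! ## Block E: operators on X and matrices -/

/-- compact operators map bounded weakly null sequences to null sequences -/
def WNCStmt (𝕜 : Type*) [RCLike 𝕜] (X Z : Type*) [NormedAddCommGroup X] [NormedSpace 𝕜 X]
    [NormedAddCommGroup Z] [NormedSpace 𝕜 Z] : Prop :=
  ∀ (K : X →L[𝕜] Z), IsCompactOperator K → ∀ (x : ℕ → X) (C : ℝ), (∀ k, ‖x k‖ ≤ C) →
    (∀ f : X →L[𝕜] 𝕜, Tendsto (fun k => f (x k)) atTop (𝓝 0)) →
    Tendsto (fun k => K (x k)) atTop (𝓝 0)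

section
variable {𝕜 : Type*} [RCLike 𝕜] {A : Type*} [PartialOrder A] {Y : Type*} [NormedAddCommGroup Y]
  [NormedSpace 𝕜 Y] {τ : TreeLev A}

open Classical in
/-- product of finitely supported matrices -/
noncomputable def mulM (m m' : (A × A) →₀ 𝕜) : (A × A) →₀ 𝕜 :=
  m.sum fun ab c => m'.sum fun bc d =>
    if ab.2 = bc.1 then Finsupp.single (ab.1, bc.2) (c * d) else 0

/-- the operator on X given by a finitely supported matrix -/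
noncomputable def Dat.RX (D : Dat 𝕜 Y τ) (m : (A × A) →₀ 𝕜) : D.X →L[𝕜] D.X :=
  m.sum fun ab c => c • ((D.Jn ab.1).comp (D.dn ab.2))

/-- hypotheses on the component space Y -/
structure GoodY (𝕜 : Type*) [RCLike 𝕜] (Y : Type*) [NormedAddCommGroup Y] [NormedSpace 𝕜 Y] :
    Prop where
  compl : CompleteSpace Y
  sc : ∀ T : Y →L[𝕜] Y, ∃ c : 𝕜, IsCompactOperator (T - c • ContinuousLinearMap.id 𝕜 Y)
  wn : ∃ y : ℕ → Y, (∀ k, ‖y k‖ = 1) ∧ ∀ f : Y →L[𝕜] 𝕜, Tendsto (fun k => f (y k)) atTop (𝓝 0)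

/-- tails of operators from Y to X are compact up to small norm -/
def Dat.CO (D : Dat 𝕜 Y τ) : Prop :=
  ∀ (R : Y →L[𝕜] D.X) (e : ℝ), 0 < e → ∃ N, ∀ n ≥ N, ∃ K : Y →L[𝕜] D.X, IsCompactOperator K ∧
    ‖R - (D.PX n).comp R - K‖ ≤ e

/-- the images condition from null operators X → Y -/
def EPTStmt (D : Dat 𝕜 Y τ) : Prop :=
  ∀ {Ch : Finset ℕ → Prop} (F : FamSys Ch) (w : Wts), Rich D F w →
    (∀ (R : D.X →L[𝕜] Y) x, D.RIS x → Tendsto (fun k => R (x k)) atTop (𝓝 0)) → D.PT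

/-- operators into a space without nodes with disjoint weights are null on rapidly increasing
sequences -/
def ENULLStmt (D : Dat 𝕜 Y τ) {A0 : Type*} [PartialOrder A0] {Y0 : Type*} [NormedAddCommGroup Y0]
    [NormedSpace 𝕜 Y0] {τ0 : TreeLev A0} (D0 : Dat 𝕜 Y0 τ0) : Prop :=
  IsEmpty A0 → ∀ {Ch : Finset ℕ → Prop} (F : FamSys Ch) (w w0 : Wts), Rich D F w → Rich D0 F w0 →
    Disjoint w.L w0.L → ∀ (R : D.X →L[𝕜] D0.X) x, D.RIS x →
      Tendsto (fun k => R (x k)) atTop (𝓝 0)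

/-- operators from a space without nodes: compact up to small tails -/
def ECOStmt {A0 : Type*} [PartialOrder A0] {Y0 : Type*} [NormedAddCommGroup Y0]
    [NormedSpace 𝕜 Y0] {τ0 : TreeLev A0} (D0 : Dat 𝕜 Y0 τ0) (D : Dat 𝕜 D0.X τ) : Prop :=
  IsEmpty A0 → ∀ {Ch : Finset ℕ → Prop} (F : FamSys Ch) (w0 w : Wts), Rich D0 F w0 → Rich D F w →
    Disjoint w0.L w.L → D.CO

/-- matrices act multiplicatively on X -/
def MULXStmt (D : Dat 𝕜 Y τ) : Prop :=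
  ∀ m m' : (A × A) →₀ 𝕜, (D.RX m).comp (D.RX m') = D.RX (mulM m m')

/-- every operator is scalar + matrix + compact + small -/
def EAPPStmt (D : Dat 𝕜 Y τ) : Prop :=
  ∀ {Ch : Finset ℕ → Prop} (F : FamSys Ch) (w : Wts), Rich D F w → D.PT → GoodY 𝕜 Y → D.CO →
    ∀ T : D.X →L[𝕜] D.X, ∃ c : 𝕜, ∀ e : ℝ, 0 < e → ∃ (m : (A × A) →₀ 𝕜) (K : D.X →L[𝕜] D.X),
      IsCompactOperator K ∧ ‖T - c • ContinuousLinearMap.id 𝕜 D.X - D.RX m - K‖ ≤ e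

/-- the scalar is controlled modulo compact operators -/
def ECHStmt (D : Dat 𝕜 Y τ) : Prop :=
  ∀ {Ch : Finset ℕ → Prop} (F : FamSys Ch) (w : Wts), Rich D F w →
    ∃ c0 : ℝ, 0 < c0 ∧ ∀ (c : 𝕜) (m : (A × A) →₀ 𝕜) (K : D.X →L[𝕜] D.X), IsCompactOperator K →
      c0 * ‖c‖ ≤ ‖c • ContinuousLinearMap.id 𝕜 D.X + D.RX m + K‖

end

/-! ## Block E/K: matrices on C(K) -/

section
variable {𝕜 : Type*} [RCLike 𝕜] {A : Type*} [PartialOrder A] [TopologicalSpace A] [CompactSpace A]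

/-- indicator of the clopen set of all b ≥ a -/
noncomputable def chi (𝕜 : Type*) [RCLike 𝕜] {A : Type*} [PartialOrder A] [TopologicalSpace A]
    (hc : ∀ a : A, IsClopen {b | a ≤ b}) (a : A) : C(A, 𝕜) :=
  ⟨Set.indicator {b | a ≤ b} (fun _ => 1),
    (hc a).continuous_indicator (continuous_const)⟩

/-- f ↦ f(a) - f(parent of a) -/
noncomputable def dC (𝕜 : Type*) [RCLike 𝕜] {A : Type*} [PartialOrder A] [TopologicalSpace A]
    [CompactSpace A] (τ : TreeLev A) (a : A) : C(A, 𝕜) →L[𝕜] 𝕜 :=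
  ContinuousMap.evalCLM 𝕜 a -
    (τ.ret (τ.lev a - 1) a).elim 0 (fun b => ContinuousMap.evalCLM 𝕜 b)

/-- the operator on C(A) given by a finitely supported matrix -/
noncomputable def RC (τ : TreeLev A) (hc : ∀ a : A, IsClopen {b | a ≤ b})
    (m : (A × A) →₀ 𝕜) : C(A, 𝕜) →L[𝕜] C(A, 𝕜) :=
  m.sum fun ab c => c • ((dC 𝕜 τ ab.2).smulRight (chi 𝕜 hc ab.1))

/-- matrices act multiplicatively on C(A) -/
def MULCStmt (𝕜 : Type*) [RCLike 𝕜] {A : Type*} [PartialOrder A] [TopologicalSpace A]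
    [CompactSpace A] (τ : TreeLev A) (hc : ∀ a : A, IsClopen {b | a ≤ b}) : Prop :=
  ∀ m m' : (A × A) →₀ 𝕜, (RC τ hc m).comp (RC τ hc m') = RC τ hc (mulM m m')

/-- the projections f ↦ f ∘ ret p on C(A) -/
def PCStmt (𝕜 : Type*) [RCLike 𝕜] {A : Type*} [PartialOrder A] [TopologicalSpace A]
    [CompactSpace A] (τ : TreeLev A) : Prop :=
  (∀ a : A, IsClopen {b | a ≤ b}) →
  ∃ P : ℕ → C(A, 𝕜) →L[𝕜] C(A, 𝕜), (∀ p f x, P p f x = (τ.ret p x).elim 0 f) ∧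
    (∀ p f, ‖P p f‖ ≤ ‖f‖) ∧ ∀ f, Tendsto (fun p => P p f) atTop (𝓝 f)

/-- P p on C(A) as a finite sum -/
def PCSUMStmt (𝕜 : Type*) [RCLike 𝕜] {A : Type*} [PartialOrder A] [TopologicalSpace A]
    [CompactSpace A] (τ : TreeLev A) (hc : ∀ a : A, IsClopen {b | a ≤ b}) : Prop :=
  ∀ (p : ℕ) (N : Finset A), (∀ a, a ∈ N ↔ τ.lev a ≤ p) → ∀ (f : C(A, 𝕜)) (x : A),
    (τ.ret p x).elim 0 f = (∑ a ∈ N, dC 𝕜 τ a f • chi 𝕜 hc a) x

/-- compact operators have small tails -/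
def TPCStmt (𝕜 : Type*) [RCLike 𝕜] {A : Type*} [PartialOrder A] [TopologicalSpace A]
    [CompactSpace A] (τ : TreeLev A) : Prop :=
  (∀ a : A, IsClopen {b | a ≤ b}) →
  ∀ P : ℕ → C(A, 𝕜) →L[𝕜] C(A, 𝕜), (∀ p f x, P p f x = (τ.ret p x).elim 0 f) →
    (∀ p f, ‖P p f‖ ≤ ‖f‖) → (∀ f, Tendsto (fun p => P p f) atTop (𝓝 f)) →
    ∀ T : C(A, 𝕜) →L[𝕜] C(A, 𝕜), IsCompactOperator T → ∀ e : ℝ, 0 < e →
      (∃ p, ‖T - T.comp (P p)‖ ≤ e) ∧ ∃ q, ‖T - (P q).comp T‖ ≤ e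

/-- compact operators on C(A) are limits of finite matrices -/
def DENCStmt (𝕜 : Type*) [RCLike 𝕜] {A : Type*} [PartialOrder A] [TopologicalSpace A]
    [CompactSpace A] (τ : TreeLev A) (hc : ∀ a : A, IsClopen {b | a ≤ b}) : Prop :=
  ∀ T : C(A, 𝕜) →L[𝕜] C(A, 𝕜), IsCompactOperator T → ∀ e : ℝ, 0 < e →
    ∃ m : (A × A) →₀ 𝕜, ‖T - RC τ hc m‖ ≤ e

variable {Y : Type*} [NormedAddCommGroup Y] [NormedSpace 𝕜 Y] {τ : TreeLev A}

/-- Y-valued form of the norm of a matrix: bound for the nodes of RX m x -/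
def VALStmt (D : Dat 𝕜 Y τ) (hc : ∀ a : A, IsClopen {b | a ≤ b}) : Prop :=
  (∀ (m : (A × A) →₀ 𝕜) (x : D.X) a, ‖D.nd a (D.RX m x)‖ ≤ ‖RC τ hc m‖ * ‖x‖) ∧
  (∀ (m : (A × A) →₀ 𝕜) (f : C(A, 𝕜)) (y : Y) (p : ℕ) (x : D.X), (∀ ab ∈ m.support,
    τ.lev ab.2 ≤ p) → (∀ a, τ.lev a ≤ p → D.nd a x = f a • y) →
    ∀ a, D.nd a (D.RX m x) = (RC τ hc m f) a • y)

/-- upper estimate of matrices modulo compact operators -/
def UPXStmt (D : Dat 𝕜 Y τ) (hc : ∀ a : A, IsClopen {b | a ≤ b}) : Prop :=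
  ∀ m : (A × A) →₀ 𝕜, ∃ K : D.X →L[𝕜] D.X, IsCompactOperator K ∧
    ‖D.RX m - K‖ ≤ 2 * ‖RC τ hc m‖

/-- lower estimate of matrices modulo compact operators -/
def LOXStmt (D : Dat 𝕜 Y τ) (hc : ∀ a : A, IsClopen {b | a ≤ b}) : Prop :=
  GoodY 𝕜 Y → ∀ (m : (A × A) →₀ 𝕜) (K : D.X →L[𝕜] D.X), IsCompactOperator K →
    ‖RC τ hc m‖ ≤ 2 * ‖D.RX m - K‖

end

/-- r is a forest order on V with clopen upper sets -/
structure ForOrd {K : Type*} [TopologicalSpace K] (V : Set K) (r : K → K → Prop) : Prop where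
  mem : ∀ a b, r a b → a ∈ V ∧ b ∈ V
  refl : ∀ a ∈ V, r a a
  anti : ∀ a b, r a b → r b a → a = b
  trans : ∀ a b c, r a b → r b c → r a c
  fin : ∀ a, {b | r b a}.Finite
  tot : ∀ a b c, r b a → r c a → r b c ∨ r c b
  clop : ∀ a ∈ V, IsClopen {b | r a b}
  wf : ∀ f : ℕ → K, ¬ ∀ n, r (f n) (f (n + 1)) ∧ f n ≠ f (n + 1)

/-- V carries a forest order with clopen upper sets -/
def HasFor {K : Type*} [TopologicalSpace K] (V : Set K) : Prop := ∃ r, ForOrd V r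

/-- permanence: clopen subsets -/
def TRSUBStmt (K : Type*) [TopologicalSpace K] : Prop :=
  ∀ V W : Set K, IsClopen W → W ⊆ V → HasFor V → HasFor W

/-- permanence: countable disjoint unions -/
def TRUNStmt (K : Type*) [TopologicalSpace K] : Prop :=
  ∀ V : ℕ → Set K, Pairwise (fun i j => Disjoint (V i) (V j)) → (∀ i, HasFor (V i)) →
    HasFor (⋃ i, V i)

/-- permanence: adding a root -/
def TRRTStmt (K : Type*) [TopologicalSpace K] : Prop :=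
  ∀ (V : Set K) (x : K), IsClopen V → x ∈ V → HasFor (V \ {x}) → HasFor V

/-- countable unions of clopen sets with forest orders (from TRSUB, TRUN) -/
def TRCOVStmt (K : Type*) [TopologicalSpace K] : Prop :=
  ∀ V : ℕ → Set K, (∀ i, IsClopen (V i)) → (∀ i, HasFor (V i)) → HasFor (⋃ i, V i)

/-- countable metrizable spaces have clopen bases -/
def TRCLStmt (K : Type*) [TopologicalSpace K] : Prop :=
  TopologicalSpace.MetrizableSpace K → Countable K →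
    ∀ (x : K) (U : Set K), IsOpen U → x ∈ U → ∃ V, IsClopen V ∧ x ∈ V ∧ V ⊆ U

/-- nonempty closed subsets of countable compact metrizable spaces have isolated points -/
def TRISStmt (K : Type*) [TopologicalSpace K] : Prop :=
  CompactSpace K → TopologicalSpace.MetrizableSpace K → Countable K →
    ∀ C : Set K, IsClosed C → C.Nonempty → ∃ x ∈ C, ∃ U, IsOpen U ∧ U ∩ C = {x}

/-- countable compact metrizable spaces carry forest orders (from TRCOV, TRRT, TRSUB, TRCL,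
TRIS) -/
def TRALLStmt (K : Type*) [TopologicalSpace K] : Prop :=
  CompactSpace K → TopologicalSpace.MetrizableSpace K → Countable K → HasFor (Set.univ : Set K)

/-- levels for forest orders -/
def TRLEVStmt (K : Type*) [TopologicalSpace K] : Prop :=
  Countable K → HasFor (Set.univ : Set K) →
    ∃ (_ : PartialOrder K) (_ : TreeLev K), ∀ a : K, IsClopen {b | a ≤ b}

/-- countable compact metrizable spaces carry a tree order with clopen upper sets -/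
def TREEStmt.{u} : Prop :=
  ∀ (K : Type u) [TopologicalSpace K] [CompactSpace K] [TopologicalSpace.MetrizableSpace K]
    [Countable K],
    ∃ (_ : PartialOrder K) (_ : TreeLev K), ∀ a : K, IsClopen {b | a ≤ b}

/-! ## Final statement -/

/-- the algebra of compact operators on Z -/
def compOp (𝕜 : Type*) [RCLike 𝕜] (Z : Type*) [NormedAddCommGroup Z] [NormedSpace 𝕜 Z] :
    NonUnitalSubalgebra 𝕜 (Z →L[𝕜] Z) where
  carrier := {T | IsCompactOperator T}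
  add_mem' := fun ha hb => IsCompactOperator.add ha hb
  zero_mem' := isCompactOperator_zero
  mul_mem' := fun {_ b} ha _ => IsCompactOperator.comp_clm ha b
  smul_mem' := fun c _ ha => IsCompactOperator.smul ha c

/-- Q1: the Calkin algebra of X is isomorphic to the unitization of the compact operators on
C(K): there is a surjective algebra homomorphism Ψ from L(X) onto K(C(K))^+ whose kernel is
exactly the ideal of compact operators, and the norm |λ| + ‖a‖ of Ψ T = (λ, a) is equivalent to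
the distance of T to the compact operators. -/
def CALStmt.{u} (𝕜 : Type) [RCLike 𝕜] : Prop :=
  ∀ (K : Type u) [TopologicalSpace K] [CompactSpace K] [TopologicalSpace.MetrizableSpace K]
    [Countable K],
    ∃ (X : Type u) (_ : NormedAddCommGroup X) (_ : NormedSpace 𝕜 X) (_ : CompleteSpace X)
      (Ψ : (X →L[𝕜] X) →ₐ[𝕜] Unitization 𝕜 (compOp 𝕜 C(K, 𝕜))) (C : ℝ),
      Function.Surjective Ψ ∧ (∀ T, Ψ T = 0 ↔ IsCompactOperator T) ∧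
      (∀ T, ‖(Ψ T).fst‖ + ‖((Ψ T).snd : C(K, 𝕜) →L[𝕜] C(K, 𝕜))‖ ≤ C * ‖T‖) ∧
      (∀ T, ∃ T0 : X →L[𝕜] X, IsCompactOperator T0 ∧
        ‖T - T0‖ ≤ C * (‖(Ψ T).fst‖ + ‖((Ψ T).snd : C(K, 𝕜) →L[𝕜] C(K, 𝕜))‖))

/-- a set S of pairs of operators for which the first components modulo compact operators are
equivalent in norm to the second components, with density -/
structure AbsData {𝕜 : Type*} [RCLike 𝕜] {X Z : Type*} [NormedAddCommGroup X] [NormedSpace 𝕜 X]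
    [NormedAddCommGroup Z] [NormedSpace 𝕜 Z] (S : Set ((X →L[𝕜] X) × (Z →L[𝕜] Z))) (c0 : ℝ) :
    Prop where
  pos : 0 < c0
  add : ∀ s ∈ S, ∀ t ∈ S, s + t ∈ S
  smul : ∀ s ∈ S, ∀ c : 𝕜, c • s ∈ S
  mul : ∀ s ∈ S, ∀ t ∈ S, s * t ∈ S
  zero : 0 ∈ S
  comp : ∀ s ∈ S, IsCompactOperator s.2
  up : ∀ s ∈ S, ∃ K : X →L[𝕜] X, IsCompactOperator K ∧ ‖s.1 - K‖ ≤ 2 * ‖s.2‖
  lo : ∀ s ∈ S, ∀ K : X →L[𝕜] X, IsCompactOperator K → ‖s.2‖ ≤ 2 * ‖s.1 - K‖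
  den : ∀ T : Z →L[𝕜] Z, IsCompactOperator T → ∀ e : ℝ, 0 < e → ∃ s ∈ S, ‖T - s.2‖ ≤ e
  app : ∀ T : X →L[𝕜] X, ∃ c : 𝕜, ∀ e : ℝ, 0 < e → ∃ s ∈ S, ∃ K : X →L[𝕜] X,
    IsCompactOperator K ∧ ‖T - c • ContinuousLinearMap.id 𝕜 X - s.1 - K‖ ≤ e
  ch : ∀ (c : 𝕜), ∀ s ∈ S, ∀ K : X →L[𝕜] X, IsCompactOperator K →
    c0 * ‖c‖ ≤ ‖c • ContinuousLinearMap.id 𝕜 X + s.1 + K‖

/-- T corresponds to (c, V) -/
def Gam {𝕜 : Type*} [RCLike 𝕜] {X Z : Type*} [NormedAddCommGroup X] [NormedSpace 𝕜 X]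
    [NormedAddCommGroup Z] [NormedSpace 𝕜 Z] (S : Set ((X →L[𝕜] X) × (Z →L[𝕜] Z)))
    (T : X →L[𝕜] X) (c : 𝕜) (V : Z →L[𝕜] Z) : Prop :=
  ∀ e : ℝ, 0 < e → ∃ s ∈ S, ∃ K : X →L[𝕜] X, IsCompactOperator K ∧
    ‖T - c • ContinuousLinearMap.id 𝕜 X - s.1 - K‖ ≤ e ∧ ‖V - s.2‖ ≤ e

section
variable (𝕜 : Type*) [RCLike 𝕜] (X Z : Type*) [NormedAddCommGroup X] [NormedSpace 𝕜 X]
    [NormedAddCommGroup Z] [NormedSpace 𝕜 Z]

/-- existence of the correspondence -/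
def GAMEXStmt [CompleteSpace Z] : Prop :=
  ∀ (S : Set ((X →L[𝕜] X) × (Z →L[𝕜] Z))) (c0 : ℝ), AbsData S c0 →
    ∀ T : X →L[𝕜] X, ∃ c V, Gam S T c V ∧ IsCompactOperator V

/-- algebraic properties of the correspondence and uniqueness -/
def GAMALStmt : Prop :=
  ∀ (S : Set ((X →L[𝕜] X) × (Z →L[𝕜] Z))) (c0 : ℝ), AbsData S c0 →
    Gam S (1 : X →L[𝕜] X) (1 : 𝕜) (0 : Z →L[𝕜] Z) ∧
    Gam S (0 : X →L[𝕜] X) (0 : 𝕜) (0 : Z →L[𝕜] Z) ∧
    (∀ T T' c c' V V', Gam S T c V → Gam S T' c' V' → Gam S (T + T') (c + c') (V + V')) ∧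
    (∀ T c V (r : 𝕜), Gam S T c V → Gam S (r • T) (r * c) (r • V)) ∧
    (∀ T T' c c' V V', Gam S T c V → Gam S T' c' V' →
      Gam S (T * T') (c * c') (c • V' + c' • V + V * V')) ∧
    (∀ T c c' V V', Gam S T c V → Gam S T c' V' → c = c' ∧ V = V')

/-- surjectivity, kernel and norm estimates of the correspondence -/
def GAMNOStmt [CompleteSpace X] : Prop :=
  ∀ (S : Set ((X →L[𝕜] X) × (Z →L[𝕜] Z))) (c0 : ℝ), AbsData S c0 → ∃ C : ℝ,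
    (∀ (c : 𝕜) (V : Z →L[𝕜] Z), IsCompactOperator V → ∃ T, Gam S T c V) ∧
    (∀ T : X →L[𝕜] X, IsCompactOperator T → Gam S T 0 0) ∧
    (∀ T : X →L[𝕜] X, Gam S T 0 0 → IsCompactOperator T) ∧
    (∀ T c V, Gam S T c V → ‖c‖ + ‖V‖ ≤ C * ‖T‖) ∧
    (∀ T c V, Gam S T c V → ∃ T0 : X →L[𝕜] X, IsCompactOperator T0 ∧
      ‖T - T0‖ ≤ C * (‖c‖ + ‖V‖))

end

/-- abstract gluing of the estimates (from GAMEX, GAMAL, GAMNO) -/
def ABSStmt.{u, v} (𝕜 : Type) [RCLike 𝕜] : Prop :=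
  ∀ (X : Type u) [NormedAddCommGroup X] [NormedSpace 𝕜 X] [CompleteSpace X]
    (Z : Type v) [NormedAddCommGroup Z] [NormedSpace 𝕜 Z] [CompleteSpace Z]
    (S : Set ((X →L[𝕜] X) × (Z →L[𝕜] Z))) (c0 : ℝ), AbsData S c0 →
    ∃ (Ψ : (X →L[𝕜] X) →ₐ[𝕜] Unitization 𝕜 (compOp 𝕜 Z)) (C : ℝ),
      Function.Surjective Ψ ∧ (∀ T, Ψ T = 0 ↔ IsCompactOperator T) ∧
      (∀ T, ‖(Ψ T).fst‖ + ‖((Ψ T).snd : Z →L[𝕜] Z)‖ ≤ C * ‖T‖) ∧
      (∀ T, ∃ T0 : X →L[𝕜] X, IsCompactOperator T0 ∧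
        ‖T - T0‖ ≤ C * (‖(Ψ T).fst‖ + ‖((Ψ T).snd : Z →L[𝕜] Z)‖))

end CAL
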